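import Mathlib

/-!
# Overlaps on the circle

`D q z ρ` is the set of the `x` on the circle with `‖q x - z‖ < ρ`.  Its measure is `2 ρ`, and for
`q = d e`, `r = d f` with coprime `e`, `f` the measure of `D q z ρ ∩ D r w σ` is at most
`4 ρ σ + 2 min (ρ / e) (σ / f)`.
-/

set_option autoImplicit false

namespace Pool.Agent.L5helper10.IK

open MeasureTheory Finset

/-- the set of the `x` on the circle with `‖q x - z‖ < ρ` -/
def D (q : ℕ) (z : UnitAddCircle) (ρ : ℝ) : Set UnitAddCircle := {x | ‖q • x - z‖ < ρ}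

theorem D_open (q : ℕ) (z : UnitAddCircle) (ρ : ℝ) : IsOpen (D q z ρ) := by
  have h : Continuous (fun x : UnitAddCircle => ‖q • x - z‖) := by fun_prop
  exact isOpen_lt h continuous_const

theorem D_meas (q : ℕ) (z : UnitAddCircle) (ρ : ℝ) : MeasurableSet (D q z ρ) :=
  (D_open q z ρ).measurableSet

theorem mp_nsmul (q : ℕ) (hq : 0 < q) :
    MeasurePreserving (fun x : UnitAddCircle => q • x) volume volume := by
  have h := Measure.measurePreserving_zsmul (G := UnitAddCircle) volume (n := (q : ℤ)) (by exact_mod_cast hq.ne')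
  simpa using h

theorem vol_ball (c : UnitAddCircle) (r : ℝ) (h0 : 0 ≤ r) (h1 : r ≤ 1 / 2) :
    volume (Metric.ball c r) = ENNReal.ofReal (2 * r) := by
  rw [← measure_congr (AddCircle.closedBall_ae_eq_ball (T := 1) (x := c) (ε := r))]
  rw [AddCircle.volume_closedBall, min_eq_right (by linarith)]

theorem real_D (q : ℕ) (hq : 0 < q) (z : UnitAddCircle) (ρ : ℝ) (h0 : 0 ≤ ρ) (h1 : ρ ≤ 1 / 2) :
    volume.real (D q z ρ) = 2 * ρ := by
  have h : D q z ρ = (fun x : UnitAddCircle => q • x) ⁻¹' (Metric.ball z ρ) := by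
    ext x
    simp [D, Metric.mem_ball, dist_eq_norm]
  rw [h, measureReal_def, (mp_nsmul q hq).measure_preimage Metric.isOpen_ball.measurableSet.nullMeasurableSet,
    vol_ball z ρ h0 h1, ENNReal.toReal_ofReal (by linarith)]

/-- the norm of a point of the circle -/
theorem norm_lt_iff (t ρ : ℝ) : ‖((t : ℝ) : UnitAddCircle)‖ < ρ ↔ ∃ m : ℤ, |t - m| < ρ := by
  rw [UnitAddCircle.norm_eq]
  constructor
  · intro h; exact ⟨_, h⟩
  · rintro ⟨m, hm⟩
    exact (round_le t m).trans_lt hm

theorem card_int_window (K : Finset ℤ) (α β : ℝ) (hαβ : α ≤ β)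
    (h : ∀ t ∈ K, α < (t : ℝ) ∧ (t : ℝ) < β) : (#K : ℝ) ≤ β - α + 1 := by
  have h1 : K ⊆ Finset.Ioo ⌊α⌋ ⌈β⌉ := by
    intro t ht
    obtain ⟨h2, h3⟩ := h t ht
    rw [Finset.mem_Ioo]
    exact ⟨Int.floor_lt.mpr h2, Int.lt_ceil.mpr h3⟩
  have h2 : #K ≤ (⌈β⌉ - ⌊α⌋ - 1).toNat := by
    have := Finset.card_le_card h1
    rwa [Int.card_Ioo] at this
  have h3 : ((⌈β⌉ - ⌊α⌋ - 1).toNat : ℝ) ≤ β - α + 1 := by
    rcases le_or_gt 0 (⌈β⌉ - ⌊α⌋ - 1) with h4 | h4
    · have h5 : (((⌈β⌉ - ⌊α⌋ - 1).toNat : ℤ) : ℝ) = ((⌈β⌉ - ⌊α⌋ - 1 : ℤ) : ℝ) := by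
        rw [Int.toNat_of_nonneg h4]
      have h6 : ((⌈β⌉ - ⌊α⌋ - 1).toNat : ℝ) = ((⌈β⌉ - ⌊α⌋ - 1 : ℤ) : ℝ) := by
        rw [← h5]; norm_cast
      rw [h6]
      push_cast
      have h7 := Int.ceil_lt_add_one β
      have h8 := Int.sub_one_lt_floor α
      linarith
    · rw [Int.toNat_of_nonpos h4.le]
      push_cast
      linarith
  calc (#K : ℝ) ≤ ((⌈β⌉ - ⌊α⌋ - 1).toNat : ℝ) := by exact_mod_cast h2
    _ ≤ _ := h3

/-- the number of the points of a coset of the group of order `e` near a point -/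
theorem count_le (e f : ℕ) (he : 0 < e) (hef : Nat.Coprime e f) (v : UnitAddCircle) (σ : ℝ) (hσ : 0 ≤ σ) :
    (#((range e).filter (fun k : ℕ => ‖v + (((f * k / e : ℝ)) : UnitAddCircle)‖ < σ)) : ℝ) ≤ 2 * σ * e + 1 := by
  classical
  obtain ⟨v0, rfl⟩ := QuotientAddGroup.mk_surjective v
  have he' : (0 : ℝ) < e := by exact_mod_cast he
  set A := (range e).filter (fun k : ℕ =>
    ‖((v0 : ℝ) : UnitAddCircle) + (((f * k / e : ℝ)) : UnitAddCircle)‖ < σ) with hA
  have hex : ∀ k ∈ A, ∃ m : ℤ, |(v0 + f * k / e) - m| < σ := by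
    intro k hk
    rw [hA, Finset.mem_filter] at hk
    have := hk.2
    rw [← AddCircle.coe_add, norm_lt_iff] at this
    exact this
  choose! m hm using hex
  let φ : ℕ → ℤ := fun k => f * k - e * m k
  have hinj : Set.InjOn φ A := by
    intro k hk k' hk' h
    have hk1 : k < e := by
      have := (Finset.mem_filter.mp hk).1
      exact Finset.mem_range.mp this
    have hk1' : k' < e := by
      have := (Finset.mem_filter.mp hk').1
      exact Finset.mem_range.mp this
    simp only [φ] at h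
    have h1 : (e : ℤ) ∣ f * ((k : ℤ) - k') := ⟨m k - m k', by linarith⟩
    have h2 : IsCoprime (e : ℤ) (f : ℤ) := Nat.isCoprime_iff_coprime.mpr hef
    have h3 : (e : ℤ) ∣ (k : ℤ) - k' := h2.dvd_of_dvd_mul_left h1
    have h4 : (k : ℤ) - k' = 0 := by
      apply Int.eq_zero_of_abs_lt_dvd h3
      rw [abs_lt]
      constructor <;> omega
    omega
  have hcard : #A = #(A.image φ) := (Finset.card_image_of_injOn hinj).symm
  rw [hcard]
  have := card_int_window (A.image φ) (-(e * v0) - e * σ) (-(e * v0) + e * σ)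
    (by have := mul_nonneg he'.le hσ; linarith) (by
      intro t ht
      rw [Finset.mem_image] at ht
      obtain ⟨k, hk, rfl⟩ := ht
      have h1 := hm k hk
      simp only [φ]
      push_cast
      rw [abs_lt] at h1
      obtain ⟨h1, h2⟩ := h1
      have h3 : e * (v0 + f * k / e - m k) = e * v0 + (f * k - e * m k) := by
        field_simp
        ring
      constructor
      · have := mul_lt_mul_of_pos_left h1 he'
        rw [h3] at this
        linarith
      · have := mul_lt_mul_of_pos_left h2 he'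
        rw [h3] at this
        linarith)
  linarith

theorem overlap_coprime (e f : ℕ) (he : 0 < e) (hf : 0 < f) (hef : Nat.Coprime e f)
    (z w : UnitAddCircle) (ρ σ : ℝ) (hρ : 0 ≤ ρ) (hρ1 : ρ ≤ 1 / 2) (hσ : 0 ≤ σ) :
    volume.real (D e z ρ ∩ D f w σ) ≤ 4 * ρ * σ + 2 * (ρ / e) := by
  classical
  have he' : (0 : ℝ) < e := by exact_mod_cast he
  set s : ℕ → UnitAddCircle := fun k => (((k / e : ℝ)) : UnitAddCircle) with hs
  have hes : ∀ k, e • s k = 0 := by
    intro k
    simp only [hs]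
    rw [← AddCircle.coe_nsmul, nsmul_eq_mul]
    rw [show (e : ℝ) * ((k : ℝ) / e) = ((k : ℤ) : ℝ) by push_cast; field_simp]
    have := AddCircle.coe_period (1 : ℝ)
    rw [show ((k : ℤ) : ℝ) = (k : ℤ) • (1 : ℝ) by simp, AddCircle.coe_zsmul, this, smul_zero]
  have hfs : ∀ k, f • s k = (((f * k / e : ℝ)) : UnitAddCircle) := by
    intro k
    simp only [hs]
    rw [← AddCircle.coe_nsmul, nsmul_eq_mul]
    congr 1
    ring
  set B : ℕ → Set UnitAddCircle := fun k => {x | ‖f • (x + s k) - w‖ < σ} with hB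
  have hBm : ∀ k, MeasurableSet (B k) := by
    intro k
    have h : Continuous (fun x : UnitAddCircle => ‖f • (x + s k) - w‖) := by fun_prop
    exact (isOpen_lt h continuous_const).measurableSet
  have h1 : ∀ k, volume.real (D e z ρ ∩ D f w σ) = volume.real (D e z ρ ∩ B k) := by
    intro k
    have h2 := (measurePreserving_add_right (volume : Measure UnitAddCircle) (s k)).measure_preimage
      ((D_meas e z ρ).inter (D_meas f w σ)).nullMeasurableSet
    have h3 : (fun x => x + s k) ⁻¹' (D e z ρ ∩ D f w σ) = D e z ρ ∩ B k := by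
      ext x
      simp only [Set.mem_preimage, Set.mem_inter_iff, D, Set.mem_ofPred_eq, hB]
      rw [smul_add e x (s k), hes k, add_zero]
    rw [measureReal_def, measureReal_def, ← h2, h3]
  have h2 : (e : ℝ) * volume.real (D e z ρ ∩ D f w σ) = ∑ k ∈ range e, volume.real (D e z ρ ∩ B k) := by
    rw [← Finset.sum_congr rfl (fun k _ => h1 k), Finset.sum_const, card_range, nsmul_eq_mul]
  have h3 : ∑ k ∈ range e, volume.real (D e z ρ ∩ B k) =
      ∫ x in D e z ρ, ∑ k ∈ range e, (B k).indicator (fun _ => (1 : ℝ)) x := by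
    rw [integral_finsetSum]
    · refine Finset.sum_congr rfl fun k _ => ?_
      rw [integral_indicator (hBm k), setIntegral_const, smul_eq_mul, mul_one,
        measureReal_restrict_apply (hBm k), Set.inter_comm]
    · intro k _
      exact (integrable_const (1 : ℝ)).indicator (hBm k)
  have h4 : ∫ x in D e z ρ, ∑ k ∈ range e, (B k).indicator (fun _ => (1 : ℝ)) x ≤
      ∫ x in D e z ρ, (2 * σ * e + 1) := by
    refine integral_mono ?_ (integrable_const _) ?_
    · exact integrable_finsetSum _ fun k _ => (integrable_const (1 : ℝ)).indicator (hBm k)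
    · intro x
      have h5 : ∑ k ∈ range e, (B k).indicator (fun _ => (1 : ℝ)) x =
          (#((range e).filter (fun k : ℕ => ‖(f • x - w) + (((f * k / e : ℝ)) : UnitAddCircle)‖ < σ)) : ℝ) := by
        rw [Finset.card_filter]
        push_cast
        refine Finset.sum_congr rfl fun k _ => ?_
        have h6 : x ∈ B k ↔ ‖(f • x - w) + (((f * k / e : ℝ)) : UnitAddCircle)‖ < σ := by
          simp only [hB, Set.mem_ofPred_eq]
          rw [smul_add, hfs k]
          rw [show f • x + ((f * k / e : ℝ) : UnitAddCircle) - w = f • x - w + ((f * k / e : ℝ) : UnitAddCircle) by abel]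
        by_cases hx : x ∈ B k
        · rw [Set.indicator_of_mem hx, if_pos (h6.mp hx)]
        · rw [Set.indicator_of_notMem hx, if_neg (fun h => hx (h6.mpr h))]
      show ∑ k ∈ range e, (B k).indicator (fun _ => (1 : ℝ)) x ≤ 2 * σ * e + 1
      rw [h5]
      exact count_le e f he hef _ σ hσ
  rw [setIntegral_const, smul_eq_mul, real_D e he z ρ hρ hρ1] at h4
  have h5 : (e : ℝ) * volume.real (D e z ρ ∩ D f w σ) ≤ 2 * ρ * (2 * σ * e + 1) := by
    rw [h2, h3]; exact h4
  have h6 : volume.real (D e z ρ ∩ D f w σ) ≤ 2 * ρ * (2 * σ * e + 1) / e := by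
    rw [le_div_iff₀ he']; linarith
  refine h6.trans (le_of_eq ?_)
  field_simp
  ring

theorem overlap (d e f : ℕ) (hd : 0 < d) (he : 0 < e) (hf : 0 < f) (hef : Nat.Coprime e f)
    (z w : UnitAddCircle) (ρ σ : ℝ) (hρ : 0 ≤ ρ) (hρ1 : ρ ≤ 1 / 2) (hσ : 0 ≤ σ) (hσ1 : σ ≤ 1 / 2) :
    volume.real (D (d * e) z ρ ∩ D (d * f) w σ) ≤ 4 * ρ * σ + 2 * min (ρ / e) (σ / f) := by
  have h1 : D (d * e) z ρ ∩ D (d * f) w σ = (fun x : UnitAddCircle => d • x) ⁻¹' (D e z ρ ∩ D f w σ) := by
    ext x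
    simp only [D, Set.mem_inter_iff, Set.mem_ofPred_eq, Set.mem_preimage, ← mul_smul, mul_comm]
  rw [h1, measureReal_def, (mp_nsmul d hd).measure_preimage
    ((D_meas e z ρ).inter (D_meas f w σ)).nullMeasurableSet, ← measureReal_def]
  rcases le_total (ρ / e) (σ / f) with h | h
  · rw [min_eq_left h]
    exact overlap_coprime e f he hf hef z w ρ σ hρ hρ1 hσ
  · rw [min_eq_right h, Set.inter_comm]
    have := overlap_coprime f e hf he hef.symm w z σ ρ hσ hσ1 hρ
    linarith

end Pool.Agent.L5helper10.IK
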