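import Mathlib
import Pool.Agent.N852.Div

/-!
# Weighted four-cycles

For positive integers `q, r` put `e = q / gcd (q, r)` and `f = r / gcd (q, r)` and
`W q r = e ^ (-5/8) f ^ (-1/2)`.  The sum of `W q r W q' r W q r' W q' r'` over all `q', r, r'` with
`r, r' < q, q'` is bounded by an absolute constant.  This gives a bound for the bilinear form of `W`.
-/

set_option autoImplicit false
set_option maxHeartbeats 4000000

namespace Pool.Agent.L5helper10.IK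

open Finset

/-- `q / gcd (q, r)` -/
def ee (q r : ℕ) : ℕ := q / Nat.gcd q r

/-- `r / gcd (q, r)` -/
def ff (q r : ℕ) : ℕ := r / Nat.gcd q r

/-- the weight -/
noncomputable def W (q r : ℕ) : ℝ := (ee q r : ℝ) ^ (-(5 / 8) : ℝ) * (ff q r : ℝ) ^ (-(1 / 2) : ℝ)

theorem W_nonneg (q r : ℕ) : 0 ≤ W q r := by unfold W; positivity

theorem ee_mul (q r : ℕ) : Nat.gcd q r * ee q r = q := Nat.mul_div_cancel' (Nat.gcd_dvd_left q r)

theorem ff_mul (q r : ℕ) : Nat.gcd q r * ff q r = r := Nat.mul_div_cancel' (Nat.gcd_dvd_right q r)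

theorem cross (q r : ℕ) : q * ff q r = r * ee q r := by
  have h1 := ee_mul q r
  have h2 := ff_mul q r
  calc q * ff q r = (Nat.gcd q r * ee q r) * ff q r := by rw [h1]
    _ = (Nat.gcd q r * ff q r) * ee q r := by ring
    _ = r * ee q r := by rw [h2]

theorem ee_pos (q r : ℕ) (hq : 0 < q) : 0 < ee q r := by
  have h1 := ee_mul q r
  rcases Nat.eq_zero_or_pos (ee q r) with h | h
  · rw [h, mul_zero] at h1; omega
  · exact h

theorem ff_pos (q r : ℕ) (hr : 0 < r) : 0 < ff q r := by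
  have h1 := ff_mul q r
  rcases Nat.eq_zero_or_pos (ff q r) with h | h
  · rw [h, mul_zero] at h1; omega
  · exact h

theorem ff_lt_ee (q r : ℕ) (h : r < q) : ff q r < ee q r := by
  have h1 := ee_mul q r
  have h2 := ff_mul q r
  have hg : 0 < Nat.gcd q r := Nat.gcd_pos_of_pos_left _ (by omega)
  by_contra hcon
  push Not at hcon
  have := Nat.mul_le_mul_left (Nat.gcd q r) hcon
  omega

theorem coprime_ef (q r : ℕ) (hq : 0 < q) : Nat.Coprime (ee q r) (ff q r) :=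
  Nat.coprime_div_gcd_div_gcd (Nat.gcd_pos_of_pos_left _ hq)

theorem relation (q r q' r' : ℕ) (hq : 0 < q) (hr : 0 < r) (hq' : 0 < q') (hr' : 0 < r') :
    ff q r * ee q' r * ee q r' * ff q' r' = ee q r * ff q' r * ff q r' * ee q' r' := by
  have h1 := cross q r
  have h2 := cross q' r
  have h3 := cross q r'
  have h4 := cross q' r'
  have hpos : 0 < q * r * q' * r' := by positivity
  have : (q * r * q' * r') * (ff q r * ee q' r * ee q r' * ff q' r') =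
      (q * r * q' * r') * (ee q r * ff q' r * ff q r' * ee q' r') := by
    calc (q * r * q' * r') * (ff q r * ee q' r * ee q r' * ff q' r')
        = (q * ff q r) * (r * ee q' r) * (r' * ee q r') * (q' * ff q' r') := by ring
      _ = (r * ee q r) * (q' * ff q' r) * (q * ff q r') * (r' * ee q' r') := by rw [h1, ← h2, ← h3, h4]
      _ = _ := by ring
  exact Nat.eq_of_mul_eq_mul_left hpos this

/-- the weight of a cycle -/
theorem weight_le (q r q' r' : ℕ) (hr : 0 < r) (hr' : 0 < r') (h1 : r < q) (h2 : r < q') (h3 : r' < q)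
    (h4 : r' < q') :
    W q r * W q' r * W q r' * W q' r' ≤
      ((ff q r * ee q' r * ee q r' * ff q' r' : ℕ) : ℝ) ^ (-(9 / 8) : ℝ) := by
  have hrel := relation q r q' r' (by omega) hr (by omega) hr'
  set e1 := ee q r
  set f1 := ff q r
  set e2 := ee q' r
  set f2 := ff q' r
  set e4 := ee q r'
  set f4 := ff q r'
  set e3 := ee q' r'
  set f3 := ff q' r'
  have p1 : 0 < e1 := ee_pos _ _ (by omega)
  have p2 : 0 < e2 := ee_pos _ _ (by omega)
  have p3 : 0 < e3 := ee_pos _ _ (by omega)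
  have p4 : 0 < e4 := ee_pos _ _ (by omega)
  have r1 : 0 < f1 := ff_pos _ _ hr
  have r2 : 0 < f2 := ff_pos _ _ hr
  have r3 : 0 < f3 := ff_pos _ _ hr'
  have r4 : 0 < f4 := ff_pos _ _ hr'
  have l1 : f1 ≤ e1 := (ff_lt_ee q r h1).le
  have l2 : f2 ≤ e2 := (ff_lt_ee q' r h2).le
  have l3 : f3 ≤ e3 := (ff_lt_ee q' r' h4).le
  have l4 : f4 ≤ e4 := (ff_lt_ee q r' h3).le
  set N : ℕ := f1 * e2 * e4 * f3 with hN
  set P : ℕ := e1 * e2 * e4 * e3 with hP
  set R : ℕ := f1 * f2 * f4 * f3 with hR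
  have hNpos : 0 < N := by positivity
  have hPpos : 0 < P := by positivity
  have hRpos : 0 < R := by positivity
  have hPR : P * R = N * N := by
    have : N * N = N * (e1 * f2 * f4 * e3) := by rw [← hrel]
    rw [this]; rw [hP, hR, hN]; ring
  have hRP : R ≤ P := by
    rw [hR, hP]
    exact Nat.mul_le_mul (Nat.mul_le_mul (Nat.mul_le_mul l1 l2) l4) l3
  have hNP : N ≤ P := by
    by_contra hcon
    push Not at hcon
    have : P * R < N * N := by
      calc P * R ≤ P * P := Nat.mul_le_mul_left _ hRP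
        _ < N * N := Nat.mul_lt_mul'' hcon hcon
    omega
  have hW : W q r * W q' r * W q r' * W q' r' = (P : ℝ) ^ (-(5 / 8) : ℝ) * (R : ℝ) ^ (-(1 / 2) : ℝ) := by
    unfold W
    rw [hP, hR]
    push_cast
    rw [Real.mul_rpow (by positivity) (by positivity), Real.mul_rpow (by positivity) (by positivity),
      Real.mul_rpow (by positivity) (by positivity), Real.mul_rpow (by positivity) (by positivity),
      Real.mul_rpow (by positivity) (by positivity), Real.mul_rpow (by positivity) (by positivity)]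
    ring
  rw [hW]
  have hPr : (0 : ℝ) < P := by exact_mod_cast hPpos
  have hRr : (0 : ℝ) < R := by exact_mod_cast hRpos
  have hNr : (0 : ℝ) < N := by exact_mod_cast hNpos
  have hPRr : (P : ℝ) * R = N * N := by exact_mod_cast hPR
  have e1 : (P : ℝ) ^ (-(5 / 8) : ℝ) = (P : ℝ) ^ (-(1 / 2) : ℝ) * (P : ℝ) ^ (-(1 / 8) : ℝ) := by
    rw [← Real.rpow_add hPr]; norm_num
  have e2 : (P : ℝ) ^ (-(1 / 2) : ℝ) * (R : ℝ) ^ (-(1 / 2) : ℝ) = (N : ℝ) ^ (-1 : ℝ) := by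
    rw [← Real.mul_rpow hPr.le hRr.le, hPRr, Real.mul_rpow hNr.le hNr.le, ← Real.rpow_add hNr]
    norm_num
  have e3 : (P : ℝ) ^ (-(1 / 8) : ℝ) ≤ (N : ℝ) ^ (-(1 / 8) : ℝ) := by
    apply Real.rpow_le_rpow_of_nonpos hNr (by exact_mod_cast hNP) (by norm_num)
  calc (P : ℝ) ^ (-(5 / 8) : ℝ) * (R : ℝ) ^ (-(1 / 2) : ℝ)
      = ((P : ℝ) ^ (-(1 / 2) : ℝ) * (R : ℝ) ^ (-(1 / 2) : ℝ)) * (P : ℝ) ^ (-(1 / 8) : ℝ) := by
        rw [e1]; ring
    _ = (N : ℝ) ^ (-1 : ℝ) * (P : ℝ) ^ (-(1 / 8) : ℝ) := by rw [e2]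
    _ ≤ (N : ℝ) ^ (-1 : ℝ) * (N : ℝ) ^ (-(1 / 8) : ℝ) := by
        apply mul_le_mul_of_nonneg_left e3; positivity
    _ = (N : ℝ) ^ (-(9 / 8) : ℝ) := by
        rw [← Real.rpow_add hNr]; norm_num

/-- the sum over the cycles through a given point -/
theorem cycles : ∃ C0 : ℝ, 0 < C0 ∧ ∀ S : Finset ℕ, (∀ s ∈ S, 0 < s) → ∀ q : ℕ, 0 < q →
    ∑ q' ∈ S, (∑ r ∈ S.filter (fun r => r < q ∧ r < q'), W q r * W q' r) ^ 2 ≤ C0 := by
  classical
  obtain ⟨C, hC, hdiv⟩ := Pool.Agent.N852.divisor_bound (1 / 96) (by norm_num)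
  have hsum : Summable (fun n : ℕ => (n : ℝ) ^ (-(17 / 16) : ℝ)) :=
    Real.summable_nat_rpow.mpr (by norm_num)
  refine ⟨C ^ 6 * (∑' n : ℕ, (n : ℝ) ^ (-(17 / 16) : ℝ)) + 1, ?_, ?_⟩
  · have : 0 ≤ ∑' n : ℕ, (n : ℝ) ^ (-(17 / 16) : ℝ) := tsum_nonneg fun n => by positivity
    positivity
  intro S hS q hq
  set Tr : Finset (ℕ × ℕ × ℕ) := (S ×ˢ S ×ˢ S).filter
    (fun t => (t.2.1 < q ∧ t.2.1 < t.1) ∧ (t.2.2 < q ∧ t.2.2 < t.1)) with hTr
  have h1 : ∑ q' ∈ S, (∑ r ∈ S.filter (fun r => r < q ∧ r < q'), W q r * W q' r) ^ 2 =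
      ∑ t ∈ Tr, W q t.2.1 * W t.1 t.2.1 * W q t.2.2 * W t.1 t.2.2 := by
    rw [hTr, Finset.sum_filter, Finset.sum_product]
    refine Finset.sum_congr rfl fun q' _ => ?_
    rw [Finset.sum_product, sq, Finset.sum_mul_sum, Finset.sum_filter]
    refine Finset.sum_congr rfl fun r _ => ?_
    by_cases hr : r < q ∧ r < q'
    · rw [if_pos hr, Finset.sum_filter]
      refine Finset.sum_congr rfl fun r' _ => ?_
      by_cases hr' : r' < q ∧ r' < q'
      · rw [if_pos hr', if_pos ⟨hr, hr'⟩]; ring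
      · rw [if_neg hr', if_neg (fun h => hr' h.2)]
    · rw [if_neg hr]
      symm
      apply Finset.sum_eq_zero
      intro r' _
      rw [if_neg (fun h => hr h.1)]
  rw [h1]
  set Nf : ℕ × ℕ × ℕ → ℕ := fun t => ff q t.2.1 * ee t.1 t.2.1 * ee q t.2.2 * ff t.1 t.2.2 with hNf
  have hmem : ∀ t ∈ Tr, 0 < t.1 ∧ 0 < t.2.1 ∧ 0 < t.2.2 ∧ t.2.1 < q ∧ t.2.1 < t.1 ∧ t.2.2 < q ∧ t.2.2 < t.1 := by
    intro t ht
    rw [hTr, Finset.mem_filter, Finset.mem_product, Finset.mem_product] at ht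
    obtain ⟨⟨a1, a2, a3⟩, ⟨b1, b2⟩, b3, b4⟩ := ht
    exact ⟨hS _ a1, hS _ a2, hS _ a3, b1, b2, b3, b4⟩
  have hNpos : ∀ t ∈ Tr, 0 < Nf t := by
    intro t ht
    obtain ⟨a1, a2, a3, b1, b2, b3, b4⟩ := hmem t ht
    simp only [hNf]
    have := ff_pos q t.2.1 a2
    have := ee_pos t.1 t.2.1 a1
    have := ee_pos q t.2.2 hq
    have := ff_pos t.1 t.2.2 a3
    positivity
  have h2 : ∑ t ∈ Tr, W q t.2.1 * W t.1 t.2.1 * W q t.2.2 * W t.1 t.2.2 ≤
      ∑ t ∈ Tr, ((Nf t : ℕ) : ℝ) ^ (-(9 / 8) : ℝ) := by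
    refine Finset.sum_le_sum fun t ht => ?_
    obtain ⟨a1, a2, a3, b1, b2, b3, b4⟩ := hmem t ht
    exact weight_le q t.2.1 t.1 t.2.2 a2 a3 b1 b2 b3 b4
  have h3 : ∑ t ∈ Tr, ((Nf t : ℕ) : ℝ) ^ (-(9 / 8) : ℝ) =
      ∑ n ∈ Tr.image Nf, (#(Tr.filter (fun t => Nf t = n)) : ℝ) * (n : ℝ) ^ (-(9 / 8) : ℝ) := by
    rw [← Finset.sum_fiberwise_of_maps_to (t := Tr.image Nf) (g := Nf)
      (fun t ht => Finset.mem_image_of_mem Nf ht)]
    refine Finset.sum_congr rfl fun n _ => ?_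
    rw [Finset.sum_congr rfl (fun t ht => by rw [(Finset.mem_filter.mp ht).2]), Finset.sum_const,
      nsmul_eq_mul]
  have h4 : ∀ n ∈ Tr.image Nf, (#(Tr.filter (fun t => Nf t = n)) : ℝ) ≤ ((n.divisors.card : ℕ) : ℝ) ^ 6 := by
    intro n _
    let φ : ℕ × ℕ × ℕ → ℕ × ℕ × ℕ × ℕ × ℕ × ℕ := fun t =>
      (ee q t.2.1, ff q t.2.1, ee t.1 t.2.1, ff t.1 t.2.1, ee q t.2.2, ff q t.2.2)
    have hmaps : ∀ t ∈ Tr.filter (fun t => Nf t = n), φ t ∈
        n.divisors ×ˢ n.divisors ×ˢ n.divisors ×ˢ n.divisors ×ˢ n.divisors ×ˢ n.divisors := by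
      intro t ht
      rw [Finset.mem_filter] at ht
      obtain ⟨ht, hn⟩ := ht
      have hp := hNpos t ht
      obtain ⟨a1, a2, a3, b1, b2, b3, b4⟩ := hmem t ht
      have hrel := relation q t.2.1 t.1 t.2.2 hq a2 a1 a3
      have hn0 : n ≠ 0 := by omega
      have hn2 : n = ee q t.2.1 * ff t.1 t.2.1 * ff q t.2.2 * ee t.1 t.2.2 := by
        rw [← hn, ← hrel]
      have hn1 : n = ff q t.2.1 * ee t.1 t.2.1 * ee q t.2.2 * ff t.1 t.2.2 := hn.symm
      simp only [φ, Finset.mem_product, Nat.mem_divisors]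
      refine ⟨⟨?_, hn0⟩, ⟨?_, hn0⟩, ⟨?_, hn0⟩, ⟨?_, hn0⟩, ⟨?_, hn0⟩, ⟨?_, hn0⟩⟩
      · exact ⟨ff t.1 t.2.1 * ff q t.2.2 * ee t.1 t.2.2, by rw [hn2]; ring⟩
      · exact ⟨ee t.1 t.2.1 * ee q t.2.2 * ff t.1 t.2.2, by rw [hn1]; ring⟩
      · exact ⟨ff q t.2.1 * ee q t.2.2 * ff t.1 t.2.2, by rw [hn1]; ring⟩
      · exact ⟨ee q t.2.1 * ff q t.2.2 * ee t.1 t.2.2, by rw [hn2]; ring⟩
      · exact ⟨ff q t.2.1 * ee t.1 t.2.1 * ff t.1 t.2.2, by rw [hn1]; ring⟩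
      · exact ⟨ee q t.2.1 * ff t.1 t.2.1 * ee t.1 t.2.2, by rw [hn2]; ring⟩
    have hinj : Set.InjOn φ (Tr.filter (fun t => Nf t = n)) := by
      rintro ⟨q1, r1, s1⟩ ht ⟨q2, r2, s2⟩ ht' heq
      have m1 := hmem _ (Finset.mem_filter.mp ht).1
      have m2 := hmem _ (Finset.mem_filter.mp ht').1
      simp only [φ, Prod.mk.injEq] at heq
      obtain ⟨g1, g2, g3, g4, g5, g6⟩ := heq
      simp only at m1 m2
      obtain ⟨a1, a2, a3, b1, b2, b3, b4⟩ := m1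
      obtain ⟨a1', a2', a3', b1', b2', b3', b4'⟩ := m2
      have hr : r1 = r2 := by
        have c1 := cross q r1
        have c2 := cross q r2
        rw [g1, g2] at c1
        have := ee_pos q r2 hq
        exact Nat.eq_of_mul_eq_mul_right this (by rw [← c1, ← c2])
      have hs : s1 = s2 := by
        have c1 := cross q s1
        have c2 := cross q s2
        rw [g5, g6] at c1
        have := ee_pos q s2 hq
        exact Nat.eq_of_mul_eq_mul_right this (by rw [← c1, ← c2])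
      subst hr
      subst hs
      have hq12 : q1 = q2 := by
        have c1 := cross q1 r1
        have c2 := cross q2 r1
        rw [g3, g4] at c1
        have := ff_pos q2 r1 a2
        exact Nat.eq_of_mul_eq_mul_right this (by rw [c1, c2])
      subst hq12
      rfl
    have := Finset.card_le_card_of_injOn φ hmaps hinj
    simp only [Finset.card_product] at this
    have h5 : (#(Tr.filter (fun t => Nf t = n)) : ℝ) ≤ ((n.divisors.card : ℕ) : ℝ) *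
        (((n.divisors.card : ℕ) : ℝ) * (((n.divisors.card : ℕ) : ℝ) * (((n.divisors.card : ℕ) : ℝ) *
        (((n.divisors.card : ℕ) : ℝ) * ((n.divisors.card : ℕ) : ℝ))))) := by exact_mod_cast this
    calc _ ≤ _ := h5
      _ = _ := by ring
  have h5 : ∑ n ∈ Tr.image Nf, (#(Tr.filter (fun t => Nf t = n)) : ℝ) * (n : ℝ) ^ (-(9 / 8) : ℝ) ≤
      ∑ n ∈ Tr.image Nf, C ^ 6 * (n : ℝ) ^ (-(17 / 16) : ℝ) := by
    refine Finset.sum_le_sum fun n hn => ?_
    have hn0 : 0 < n := by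
      rw [Finset.mem_image] at hn
      obtain ⟨t, ht, rfl⟩ := hn
      exact hNpos t ht
    have hnr : (0 : ℝ) < n := by exact_mod_cast hn0
    have hd := hdiv n hn0.ne'
    have hd6 : ((n.divisors.card : ℕ) : ℝ) ^ 6 ≤ (C * (n : ℝ) ^ (1 / 96 : ℝ)) ^ 6 :=
      pow_le_pow_left₀ (by positivity) hd 6
    have he : (C * (n : ℝ) ^ (1 / 96 : ℝ)) ^ 6 = C ^ 6 * (n : ℝ) ^ (1 / 16 : ℝ) := by
      rw [mul_pow, ← Real.rpow_natCast ((n : ℝ) ^ (1 / 96 : ℝ)) 6, ← Real.rpow_mul hnr.le]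
      norm_num
    calc (#(Tr.filter (fun t => Nf t = n)) : ℝ) * (n : ℝ) ^ (-(9 / 8) : ℝ)
        ≤ (C ^ 6 * (n : ℝ) ^ (1 / 16 : ℝ)) * (n : ℝ) ^ (-(9 / 8) : ℝ) := by
          apply mul_le_mul_of_nonneg_right _ (by positivity)
          rw [← he]
          exact (h4 n hn).trans hd6
      _ = C ^ 6 * (n : ℝ) ^ (-(17 / 16) : ℝ) := by
          rw [mul_assoc, ← Real.rpow_add hnr]; norm_num
  have h6 : ∑ n ∈ Tr.image Nf, C ^ 6 * (n : ℝ) ^ (-(17 / 16) : ℝ) ≤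
      C ^ 6 * (∑' n : ℕ, (n : ℝ) ^ (-(17 / 16) : ℝ)) := by
    rw [← Finset.mul_sum]
    apply mul_le_mul_of_nonneg_left _ (by positivity)
    exact hsum.sum_le_tsum _ (fun n _ => by positivity)
  linarith [h2, h3, h5, h6]

/-- the bilinear form -/
theorem bilinear : ∃ C0 : ℝ, 0 < C0 ∧ ∀ S : Finset ℕ, (∀ s ∈ S, 0 < s) → ∀ u : ℕ → ℝ, (∀ s, 0 ≤ u s) →
    (∑ r ∈ S, ∑ q ∈ S.filter (fun q => r < q), u q * Real.sqrt (u q) * u r * W q r) ^ 4 ≤
      C0 * (∑ s ∈ S, u s ^ 2) ^ 5 := by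
  classical
  obtain ⟨C0, hC0, hcyc⟩ := cycles
  refine ⟨C0, hC0, ?_⟩
  intro S hS u hu
  set Ψ : ℝ := ∑ s ∈ S, u s ^ 2 with hΨ
  have hΨ0 : 0 ≤ Ψ := Finset.sum_nonneg fun s _ => sq_nonneg _
  set a : ℕ → ℝ := fun q => u q * Real.sqrt (u q) with ha
  have ha0 : ∀ q, 0 ≤ a q := fun q => mul_nonneg (hu q) (Real.sqrt_nonneg _)
  set T : ℝ := ∑ r ∈ S, ∑ q ∈ S.filter (fun q => r < q), u q * Real.sqrt (u q) * u r * W q r with hT
  set V : ℕ → ℕ → ℝ := fun q q' => ∑ r ∈ S.filter (fun r => r < q ∧ r < q'), W q r * W q' r with hV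
  have hV0 : ∀ q q', 0 ≤ V q q' := fun q q' =>
    Finset.sum_nonneg fun r _ => mul_nonneg (W_nonneg _ _) (W_nonneg _ _)
  have hVs : ∀ q q', V q q' = V q' q := by
    intro q q'
    simp only [hV]
    rw [Finset.filter_congr (fun r _ => and_comm)]
    exact Finset.sum_congr rfl fun r _ => mul_comm _ _
  set X : ℝ := ∑ q ∈ S, ∑ q' ∈ S, a q * a q' * V q q' with hX
  have hX0 : 0 ≤ X := Finset.sum_nonneg fun q _ => Finset.sum_nonneg fun q' _ =>
    mul_nonneg (mul_nonneg (ha0 _) (ha0 _)) (hV0 _ _)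
  -- first Cauchy-Schwarz
  have h1 : T ^ 2 ≤ Ψ * X := by
    have e1 : T = ∑ r ∈ S, u r * ∑ q ∈ S.filter (fun q => r < q), a q * W q r := by
      rw [hT]
      refine Finset.sum_congr rfl fun r _ => ?_
      rw [Finset.mul_sum]
      refine Finset.sum_congr rfl fun q _ => ?_
      simp only [ha]; ring
    have e2 : ∑ r ∈ S, (∑ q ∈ S.filter (fun q => r < q), a q * W q r) ^ 2 = X := by
      rw [hX]
      have e3 : ∀ r ∈ S, (∑ q ∈ S.filter (fun q => r < q), a q * W q r) ^ 2 =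
          ∑ q ∈ S, ∑ q' ∈ S, (if r < q ∧ r < q' then a q * a q' * (W q r * W q' r) else 0) := by
        intro r _
        rw [sq, Finset.sum_mul_sum, Finset.sum_filter]
        refine Finset.sum_congr rfl fun q _ => ?_
        by_cases h : r < q
        · rw [if_pos h, Finset.sum_filter]
          refine Finset.sum_congr rfl fun q' _ => ?_
          by_cases h' : r < q'
          · rw [if_pos h', if_pos ⟨h, h'⟩]; ring
          · rw [if_neg h', if_neg (fun hh => h' hh.2)]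
        · rw [if_neg h]
          symm
          exact Finset.sum_eq_zero fun q' _ => if_neg (fun hh => h hh.1)
      rw [Finset.sum_congr rfl e3, Finset.sum_comm]
      refine Finset.sum_congr rfl fun q _ => ?_
      rw [Finset.sum_comm]
      refine Finset.sum_congr rfl fun q' _ => ?_
      rw [← Finset.sum_filter]
      simp only [hV]
      rw [Finset.mul_sum]
    rw [e1, ← e2, hΨ]
    exact Finset.sum_mul_sq_le_sq_mul_sq S u (fun r => ∑ q ∈ S.filter (fun q => r < q), a q * W q r)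
  -- second
  have h2 : X ^ 2 ≤ Ψ ^ 2 * (Ψ * C0) := by
    have e1 : X = ∑ z ∈ S ×ˢ S, (u z.1 * u z.2) * (Real.sqrt (u z.1) * Real.sqrt (u z.2) * V z.1 z.2) := by
      rw [hX, Finset.sum_product]
      refine Finset.sum_congr rfl fun q _ => Finset.sum_congr rfl fun q' _ => ?_
      simp only [ha]; ring
    have e2 : ∑ z ∈ S ×ˢ S, (u z.1 * u z.2) ^ 2 = Ψ ^ 2 := by
      rw [hΨ, sq (∑ s ∈ S, u s ^ 2), Finset.sum_mul_sum, Finset.sum_product]
      exact Finset.sum_congr rfl fun q _ => Finset.sum_congr rfl fun q' _ => mul_pow _ _ _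
    have e3 : ∑ z ∈ S ×ˢ S, (Real.sqrt (u z.1) * Real.sqrt (u z.2) * V z.1 z.2) ^ 2 ≤ Ψ * C0 := by
      have e4 : ∀ z ∈ S ×ˢ S, (Real.sqrt (u z.1) * Real.sqrt (u z.2) * V z.1 z.2) ^ 2 ≤
          (u z.1 ^ 2 * V z.1 z.2 ^ 2 + u z.2 ^ 2 * V z.1 z.2 ^ 2) / 2 := by
        intro z _
        rw [mul_pow, mul_pow, Real.sq_sqrt (hu _), Real.sq_sqrt (hu _)]
        nlinarith [sq_nonneg (u z.1 - u z.2), sq_nonneg (V z.1 z.2),
          mul_nonneg (sq_nonneg (u z.1 - u z.2)) (sq_nonneg (V z.1 z.2))]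
      have e5 : ∑ z ∈ S ×ˢ S, u z.1 ^ 2 * V z.1 z.2 ^ 2 ≤ Ψ * C0 := by
        rw [Finset.sum_product, hΨ, Finset.sum_mul]
        refine Finset.sum_le_sum fun q hq => ?_
        simp only
        rw [← Finset.mul_sum]
        apply mul_le_mul_of_nonneg_left _ (sq_nonneg _)
        exact hcyc S hS q (hS q hq)
      have e6 : ∑ z ∈ S ×ˢ S, u z.2 ^ 2 * V z.1 z.2 ^ 2 = ∑ z ∈ S ×ˢ S, u z.1 ^ 2 * V z.1 z.2 ^ 2 := by
        rw [Finset.sum_product, Finset.sum_product, Finset.sum_comm]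
        refine Finset.sum_congr rfl fun q _ => Finset.sum_congr rfl fun q' _ => ?_
        simp only
        rw [hVs q' q]
      calc _ ≤ ∑ z ∈ S ×ˢ S, (u z.1 ^ 2 * V z.1 z.2 ^ 2 + u z.2 ^ 2 * V z.1 z.2 ^ 2) / 2 :=
            Finset.sum_le_sum e4
        _ = (∑ z ∈ S ×ˢ S, u z.1 ^ 2 * V z.1 z.2 ^ 2 + ∑ z ∈ S ×ˢ S, u z.2 ^ 2 * V z.1 z.2 ^ 2) / 2 := by
            rw [← Finset.sum_add_distrib, Finset.sum_div]
        _ ≤ Ψ * C0 := by rw [e6]; linarith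
    rw [e1]
    calc _ ≤ _ := Finset.sum_mul_sq_le_sq_mul_sq (S ×ˢ S) (fun z => u z.1 * u z.2)
          (fun z => Real.sqrt (u z.1) * Real.sqrt (u z.2) * V z.1 z.2)
      _ ≤ Ψ ^ 2 * (Ψ * C0) := by
        rw [e2]
        exact mul_le_mul_of_nonneg_left e3 (by positivity)
  have h3 : T ^ 4 ≤ (Ψ * X) ^ 2 := by
    calc T ^ 4 = (T ^ 2) ^ 2 := by ring
      _ ≤ (Ψ * X) ^ 2 := pow_le_pow_left₀ (sq_nonneg _) h1 2
  calc T ^ 4 ≤ (Ψ * X) ^ 2 := h3
    _ = Ψ ^ 2 * X ^ 2 := by ring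
    _ ≤ Ψ ^ 2 * (Ψ ^ 2 * (Ψ * C0)) := mul_le_mul_of_nonneg_left h2 (by positivity)
    _ = C0 * Ψ ^ 5 := by ring

end Pool.Agent.L5helper10.IK
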