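import Mathlib

/-!
# Rational points near a point of the plane

For a point `y` of the plane and `e ≥ 1`: for all `f < e` coprime to `e`, with at most
`(4 e ε + 1)^3` exceptions, the pairs of integer vectors `α, β` with `|f α - e β - (e - f) y| < ε` have `α`
in one and the same class modulo `e`.
-/

set_option autoImplicit false

namespace Pool.Agent.L5helper10.IK

open Finset

/-- `h y` is at distance less than `ε` from an integer vector -/
def Near (y : ℝ × ℝ) (ε : ℝ) (h : ℕ) (c : ℤ × ℤ) : Prop :=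
  |(c.1 : ℝ) - h * y.1| < ε ∧ |(c.2 : ℝ) - h * y.2| < ε

theorem lattice (y : ℝ × ℝ) (e : ℕ) (he : 1 ≤ e) (ε : ℝ) (hε : 0 < ε) :
    ∃ a : ℤ × ℤ, ∃ Bad : Finset ℕ, (#Bad : ℝ) ≤ (4 * e * ε + 1) ^ 3 ∧
      ∀ f : ℕ, 1 ≤ f → f < e → Nat.Coprime e f → f ∉ Bad → ∀ α β : ℤ × ℤ,
        |(f : ℝ) * α.1 - e * β.1 - ((e : ℝ) - f) * y.1| < ε →
        |(f : ℝ) * α.2 - e * β.2 - ((e : ℝ) - f) * y.2| < ε →
        α.1 ≡ a.1 [ZMOD e] ∧ α.2 ≡ a.2 [ZMOD e] := by
  classical
  have he' : (1 : ℝ) ≤ e := by exact_mod_cast he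
  have hz : ∀ f : ℕ, f < e → ∀ α β : ℤ × ℤ,
        |(f : ℝ) * α.1 - e * β.1 - ((e : ℝ) - f) * y.1| < ε →
        |(f : ℝ) * α.2 - e * β.2 - ((e : ℝ) - f) * y.2| < ε →
        Near y ε (e - f) (f * α.1 - e * β.1, f * α.2 - e * β.2) := by
    intro f hf α β h1 h2
    constructor
    · push_cast [Nat.cast_sub hf.le]
      exact h1
    · push_cast [Nat.cast_sub hf.le]
      exact h2
  by_cases hH : ∃ h : ℕ, 1 ≤ h ∧ h < e ∧ ∃ c : ℤ × ℤ, Near y ε h c
  swap
  · refine ⟨0, ∅, by simp; positivity, ?_⟩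
    intro f hf1 hf2 _ _ α β h1 h2
    exfalso
    by_cases hf3 : f < e
    · exact hH ⟨e - f, by omega, by omega, _, hz f hf2 α β h1 h2⟩
    · omega
  -- the minimal one
  have hH' := hH
  set h1 := Nat.find hH with hh1
  obtain ⟨h11, h1e, C, hC⟩ := Nat.find_spec hH
  rw [← hh1] at h11 h1e hC
  have hmin : ∀ h : ℕ, 1 ≤ h → h < h1 → ∀ c : ℤ × ℤ, ¬ Near y ε h c := by
    intro h hh hlt c hc
    exact Nat.find_min hH hlt ⟨hh, by omega, c, hc⟩
  have h1r : (1 : ℝ) ≤ h1 := by exact_mod_cast h11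
  -- primitive
  have hprim : ∀ g : ℕ, (g : ℤ) ∣ h1 → (g : ℤ) ∣ C.1 → (g : ℤ) ∣ C.2 → g = 1 := by
    intro g hg1 hg2 hg3
    obtain ⟨k, hk⟩ := Int.natCast_dvd_natCast.mp hg1
    obtain ⟨c1, hc1⟩ := hg2
    obtain ⟨c2, hc2⟩ := hg3
    have hg0 : 0 < g := by
      rcases Nat.eq_zero_or_pos g with h | h
      · rw [h, zero_mul] at hk; omega
      · exact h
    have hk0 : 0 < k := by
      rcases Nat.eq_zero_or_pos k with h | h
      · rw [h, mul_zero] at hk; omega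
      · exact h
    by_contra hne
    have hg2 : 2 ≤ g := by omega
    have hklt : k < h1 := by
      rw [hk]
      nlinarith
    apply hmin k hk0 hklt (c1, c2)
    have hgr : (2 : ℝ) ≤ g := by exact_mod_cast hg2
    have e1 : (C.1 : ℝ) - h1 * y.1 = g * ((c1 : ℝ) - k * y.1) := by
      rw [hc1, hk]; push_cast; ring
    have e2 : (C.2 : ℝ) - h1 * y.2 = g * ((c2 : ℝ) - k * y.2) := by
      rw [hc2, hk]; push_cast; ring
    obtain ⟨hC1, hC2⟩ := hC
    rw [e1, abs_mul, abs_of_pos (by linarith : (0 : ℝ) < g)] at hC1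
    rw [e2, abs_mul, abs_of_pos (by linarith : (0 : ℝ) < g)] at hC2
    constructor
    · show |(c1 : ℝ) - k * y.1| < ε
      nlinarith [abs_nonneg ((c1 : ℝ) - k * y.1)]
    · show |(c2 : ℝ) - k * y.2| < ε
      nlinarith [abs_nonneg ((c2 : ℝ) - k * y.2)]
  have hdvd : ∀ x : ℤ, (h1 : ℤ) ∣ x * C.1 → (h1 : ℤ) ∣ x * C.2 → (h1 : ℤ) ∣ x := by
    intro x hx1 hx2
    -- gcd argument
    set g : ℕ := Int.gcd (Int.gcd C.1 C.2) h1 with hg
    have hg1 : g = 1 := by
      apply hprim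
      · exact Int.gcd_dvd_right _ _
      · exact (Int.gcd_dvd_left (a := ((Int.gcd C.1 C.2 : ℕ) : ℤ)) _).trans (Int.gcd_dvd_left _ _)
      · exact (Int.gcd_dvd_left (a := ((Int.gcd C.1 C.2 : ℕ) : ℤ)) _).trans (Int.gcd_dvd_right _ _)
    have h3 : (h1 : ℤ) ∣ x * (Int.gcd C.1 C.2 : ℕ) := by
      rw [Int.gcd_eq_gcd_ab]
      have : x * (C.1 * C.1.gcdA C.2 + C.2 * C.1.gcdB C.2) =
        (x * C.1) * C.1.gcdA C.2 + (x * C.2) * C.1.gcdB C.2 := by ring
      rw [this]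
      exact dvd_add (hx1.mul_right _) (hx2.mul_right _)
    have h4 : IsCoprime (h1 : ℤ) ((Int.gcd C.1 C.2 : ℕ) : ℤ) := by
      rw [Int.isCoprime_iff_gcd_eq_one, Int.gcd_comm]
      exact hg1
    exact h4.dvd_of_dvd_mul_right h3
  -- the bad set
  set Bad := (range e).filter (fun f => 1 ≤ f ∧ ∃ c : ℤ × ℤ, Near y ε (e - f) c ∧
    ¬ ((h1 : ℤ) * c.1 = ((e - f : ℕ) : ℤ) * C.1 ∧ (h1 : ℤ) * c.2 = ((e - f : ℕ) : ℤ) * C.2)) with hBad
  have hbad : ∀ f ∈ Bad, ∃ c : ℤ × ℤ, Near y ε (e - f) c ∧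
    ¬ ((h1 : ℤ) * c.1 = ((e - f : ℕ) : ℤ) * C.1 ∧ (h1 : ℤ) * c.2 = ((e - f : ℕ) : ℤ) * C.2) := by
    intro f hf
    rw [hBad, Finset.mem_filter] at hf
    exact hf.2.2
  choose! c hc using hbad
  set L : ℤ := ⌊2 * e * ε⌋ with hL
  set M : ℕ := ⌈4 * e * ε⌉₊ with hM
  have hL0 : 0 ≤ L := by rw [hL]; positivity
  have hM0 : 0 < M := by rw [hM]; apply Nat.ceil_pos.mpr; positivity
  have hMr : (M : ℝ) < 4 * e * ε + 1 := Nat.ceil_lt_add_one (by positivity)
  have hMl : 4 * e * ε ≤ M := Nat.le_ceil _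
  have hLr : (L : ℝ) ≤ 2 * e * ε := Int.floor_le _
  let u : ℕ → ℤ × ℤ := fun f => ((h1 : ℤ) * (c f).1 - ((e - f : ℕ) : ℤ) * C.1,
    (h1 : ℤ) * (c f).2 - ((e - f : ℕ) : ℤ) * C.2)
  let φ : ℕ → (ℤ × ℤ) × ℕ := fun f => (u f, ((e - f) / h1) % M)
  have hbnd : ∀ (p : ℝ) (d h : ℤ) (k : ℕ), k ≤ e → |(d : ℝ) - k * p| < ε → |(h : ℝ) - h1 * p| < ε →
      |(h1 : ℝ) * d - k * h| < 2 * e * ε := by
    intro p d h k hk h2 h3
    have hk' : (k : ℝ) ≤ e := by exact_mod_cast hk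
    have h1e' : (h1 : ℝ) < e := by exact_mod_cast h1e
    have e1 : (h1 : ℝ) * d - k * h = h1 * (d - k * p) - k * (h - h1 * p) := by ring
    rw [e1]
    calc |(h1 : ℝ) * (d - k * p) - k * (h - h1 * p)| ≤ |(h1 : ℝ) * (d - k * p)| + |k * (h - h1 * p)| := abs_sub _ _
      _ = h1 * |(d : ℝ) - k * p| + k * |(h : ℝ) - h1 * p| := by
        rw [abs_mul, abs_mul, abs_of_nonneg (by positivity : (0 : ℝ) ≤ h1), abs_of_nonneg (by positivity : (0 : ℝ) ≤ k)]
      _ < 2 * e * ε := by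
        have h4 : (h1 : ℝ) * |(d : ℝ) - k * p| < h1 * ε := by
          apply mul_lt_mul_of_pos_left h2; linarith
        have h5 : (k : ℝ) * |(h : ℝ) - h1 * p| ≤ k * ε := by
          apply mul_le_mul_of_nonneg_left h3.le; positivity
        nlinarith
  have hmaps : ∀ f ∈ Bad, φ f ∈ (Finset.Icc (-L) L ×ˢ Finset.Icc (-L) L) ×ˢ range M := by
    intro f hf
    have hc1 := (hc f hf).1
    have hfe : f < e := Finset.mem_range.mp (Finset.mem_filter.mp hf).1
    simp only [φ, u, Finset.mem_product, Finset.mem_Icc, Finset.mem_range]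
    have key : ∀ x : ℤ, |(x : ℝ)| < 2 * e * ε → -L ≤ x ∧ x ≤ L := by
      intro x hx
      rw [← abs_le]
      rw [hL, Int.le_floor]
      push_cast
      exact hx.le
    have k1 := hbnd y.1 (c f).1 C.1 (e - f) (by omega) hc1.1 hC.1
    have k2 := hbnd y.2 (c f).2 C.2 (e - f) (by omega) hc1.2 hC.2
    refine ⟨⟨key _ ?_, key _ ?_⟩, Nat.mod_lt _ hM0⟩
    · push_cast
      exact k1
    · push_cast
      exact k2
  have hinj : Set.InjOn φ Bad := by
    intro f hf f' hf' heq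
    have hc1 := hc f hf
    have hc1' := hc f' hf'
    have hfe : f < e := Finset.mem_range.mp (Finset.mem_filter.mp hf).1
    have hfe' : f' < e := Finset.mem_range.mp (Finset.mem_filter.mp hf').1
    simp only [φ, u, Prod.mk.injEq] at heq
    obtain ⟨⟨hu1, hu2⟩, hmod⟩ := heq
    set h := e - f with hh
    set h' := e - f' with hh'
    have hhe : (h : ℝ) ≤ e := by exact_mod_cast Nat.sub_le _ _
    have hhe' : (h' : ℝ) ≤ e := by exact_mod_cast Nat.sub_le _ _
    -- h1 | h - h'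
    have hd : (h1 : ℤ) ∣ (h : ℤ) - h' := by
      apply hdvd
      · exact ⟨(c f).1 - (c f').1, by linarith⟩
      · exact ⟨(c f).2 - (c f').2, by linarith⟩
    obtain ⟨j, hj⟩ := hd
    have h1z : (h1 : ℤ) ≠ 0 := by omega
    have hj1 : (c f).1 - (c f').1 = j * C.1 := by
      have : (h1 : ℤ) * ((c f).1 - (c f').1) = h1 * (j * C.1) := by
        have : (h1 : ℤ) * ((c f).1 - (c f').1) = ((h : ℤ) - h') * C.1 := by linarith
        rw [this, hj]; ring
      exact mul_left_cancel₀ h1z this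
    have hj2 : (c f).2 - (c f').2 = j * C.2 := by
      have : (h1 : ℤ) * ((c f).2 - (c f').2) = h1 * (j * C.2) := by
        have : (h1 : ℤ) * ((c f).2 - (c f').2) = ((h : ℤ) - h') * C.2 := by linarith
        rw [this, hj]; ring
      exact mul_left_cancel₀ h1z this
    -- |j| < M
    have hjM : |(j : ℝ)| < 4 * e * ε := by
      have hd1 : |(j : ℝ)| * |(C.1 : ℝ) - h1 * y.1| < 2 * ε := by
        rw [← abs_mul]
        have : (j : ℝ) * ((C.1 : ℝ) - h1 * y.1) = (((c f).1 : ℝ) - h * y.1) - (((c f').1 : ℝ) - h' * y.1) := by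
          have e1 : (((c f).1 : ℝ) - (c f').1) = j * C.1 := by exact_mod_cast hj1
          have e2 : ((h : ℝ) - h') = h1 * j := by exact_mod_cast hj
          linear_combination (-1 : ℝ) * e1 + y.1 * e2
        rw [this]
        calc |(((c f).1 : ℝ) - h * y.1) - (((c f').1 : ℝ) - h' * y.1)| ≤ _ + _ := abs_sub _ _
          _ < ε + ε := add_lt_add hc1.1.1 hc1'.1.1
          _ = 2 * ε := by ring
      have hd2 : |(j : ℝ)| * |(C.2 : ℝ) - h1 * y.2| < 2 * ε := by
        rw [← abs_mul]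
        have : (j : ℝ) * ((C.2 : ℝ) - h1 * y.2) = (((c f).2 : ℝ) - h * y.2) - (((c f').2 : ℝ) - h' * y.2) := by
          have e1 : (((c f).2 : ℝ) - (c f').2) = j * C.2 := by exact_mod_cast hj2
          have e2 : ((h : ℝ) - h') = h1 * j := by exact_mod_cast hj
          linear_combination (-1 : ℝ) * e1 + y.2 * e2
        rw [this]
        calc |(((c f).2 : ℝ) - h * y.2) - (((c f').2 : ℝ) - h' * y.2)| ≤ _ + _ := abs_sub _ _
          _ < ε + ε := add_lt_add hc1.1.2 hc1'.1.2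
          _ = 2 * ε := by ring
      -- u ≠ 0
      have hstep : ∀ (p : ℝ) (d Cc : ℤ), (h1 : ℤ) * d ≠ (h : ℤ) * Cc → |(d : ℝ) - h * p| < ε →
          |(j : ℝ)| * |(Cc : ℝ) - h1 * p| < 2 * ε → |(j : ℝ)| < 4 * e * ε := by
        intro p d Cc hne hdn hjn
        have hone : (1 : ℝ) ≤ |(h1 : ℝ) * d - h * Cc| := by
          have : (1 : ℤ) ≤ |(h1 : ℤ) * d - h * Cc| := Int.one_le_abs (sub_ne_zero.mpr hne)
          exact_mod_cast this
        have hone2 : (1 : ℝ) ≤ h1 * ε + e * |(Cc : ℝ) - h1 * p| := by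
          have e1 : (h1 : ℝ) * d - h * Cc = h1 * (d - h * p) - h * (Cc - h1 * p) := by ring
          rw [e1] at hone
          have h6 := abs_sub ((h1 : ℝ) * (d - h * p)) (h * (Cc - h1 * p))
          rw [abs_mul, abs_mul, abs_of_nonneg (by positivity : (0 : ℝ) ≤ h1),
            abs_of_nonneg (by positivity : (0 : ℝ) ≤ h)] at h6
          have h4 : (h1 : ℝ) * |(d : ℝ) - h * p| ≤ h1 * ε := by
            apply mul_le_mul_of_nonneg_left hdn.le; linarith
          have h5 : (h : ℝ) * |(Cc : ℝ) - h1 * p| ≤ e * |(Cc : ℝ) - h1 * p| := by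
            apply mul_le_mul_of_nonneg_right hhe (abs_nonneg _)
          linarith
        by_cases hs : (h1 : ℝ) * ε ≤ 1 / 2
        · -- |j| ≤ 2 e |j| |δ| < 4 e ε
          have h7 : (1 : ℝ) / 2 ≤ e * |(Cc : ℝ) - h1 * p| := by linarith
          have h8 : |(j : ℝ)| ≤ 2 * (e * (|(j : ℝ)| * |(Cc : ℝ) - h1 * p|)) := by
            nlinarith [abs_nonneg (j : ℝ)]
          have h9 : (e : ℝ) * (|(j : ℝ)| * |(Cc : ℝ) - h1 * p|) < e * (2 * ε) :=
            mul_lt_mul_of_pos_left hjn (by linarith)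
          linarith
        · push Not at hs
          -- h1 |j| < e
          have h7 : (h1 : ℝ) * |(j : ℝ)| ≤ e := by
            have e2 : ((h : ℝ) - h') = h1 * j := by exact_mod_cast hj
            rw [← abs_of_nonneg (by positivity : (0 : ℝ) ≤ h1), ← abs_mul, ← e2]
            rw [abs_le]
            constructor
            · have : (0 : ℝ) ≤ h := by positivity
              linarith
            · have : (0 : ℝ) ≤ h' := by positivity
              linarith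
          have h8 : |(j : ℝ)| * (1 / 2) ≤ |(j : ℝ)| * (h1 * ε) :=
            mul_le_mul_of_nonneg_left hs.le (abs_nonneg _)
          have h9 : |(j : ℝ)| * (h1 * ε) ≤ e * ε := by
            have := mul_le_mul_of_nonneg_right h7 hε.le
            linarith
          have : 0 < (e : ℝ) * ε := by positivity
          linarith
      have hnot := hc1.2
      rw [not_and_or] at hnot
      rcases hnot with hnot | hnot
      · exact hstep y.1 (c f).1 C.1 hnot hc1.1.1 hd1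
      · exact hstep y.2 (c f).2 C.2 hnot hc1.1.2 hd2
    -- j = 0
    have hj0 : j = 0 := by
      have hjM' : |j| < (M : ℤ) := by
        have : |(j : ℝ)| < M := lt_of_lt_of_le hjM hMl
        exact_mod_cast this
      have hm : (M : ℤ) ∣ j := by
        have e3 : (h : ℤ) = h' + h1 * j := by linarith
        have e4 : (h : ℤ) / h1 = (h' : ℤ) / h1 + j := by
          rw [e3, Int.add_mul_ediv_left _ _ h1z]
        have e5 : ((h / h1 : ℕ) : ℤ) - ((h' / h1 : ℕ) : ℤ) = j := by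
          push_cast
          linarith
        have e6 : (h / h1) ≡ (h' / h1) [MOD M] := hmod
        have e7 := (Nat.modEq_iff_dvd.mp e6.symm)
        rw [e5] at e7
        exact e7
      exact Int.eq_zero_of_abs_lt_dvd hm hjM'
    rw [hj0, mul_zero] at hj
    have : h = h' := by omega
    omega
  have hcard : #Bad ≤ #((Finset.Icc (-L) L ×ˢ Finset.Icc (-L) L) ×ˢ range M) :=
    Finset.card_le_card_of_injOn φ hmaps hinj
  have hcard2 : (#Bad : ℝ) ≤ (4 * e * ε + 1) ^ 3 := by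
    rw [Finset.card_product, Finset.card_product, Int.card_Icc, card_range] at hcard
    have h2 : (((L + 1 - -L).toNat : ℕ) : ℝ) ≤ 4 * e * ε + 1 := by
      have h3 : (((L + 1 - -L).toNat : ℤ) : ℝ) = ((L + 1 - -L : ℤ) : ℝ) := by
        rw [Int.toNat_of_nonneg (by omega)]
      have h4 : (((L + 1 - -L).toNat : ℕ) : ℝ) = ((L + 1 - -L : ℤ) : ℝ) := by
        rw [← h3]; norm_cast
      rw [h4]
      push_cast
      linarith
    have h3 : (#Bad : ℝ) ≤ (((L + 1 - -L).toNat : ℕ) : ℝ) * (((L + 1 - -L).toNat : ℕ) : ℝ) * M := by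
      exact_mod_cast hcard
    have h4 : (0 : ℝ) ≤ (((L + 1 - -L).toNat : ℕ) : ℝ) := by positivity
    have h5 : (0 : ℝ) ≤ M := by positivity
    calc (#Bad : ℝ) ≤ (((L + 1 - -L).toNat : ℕ) : ℝ) * (((L + 1 - -L).toNat : ℕ) : ℝ) * M := h3
      _ ≤ (4 * e * ε + 1) * (4 * e * ε + 1) * (4 * e * ε + 1) := by
        apply mul_le_mul (mul_le_mul h2 h2 h4 (by positivity)) hMr.le h5 (by positivity)
      _ = _ := by ring
  -- the residue
  have hgood : ∀ f : ℕ, 1 ≤ f → f < e → Nat.Coprime e f → f ∉ Bad → ∀ α β : ℤ × ℤ,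
        |(f : ℝ) * α.1 - e * β.1 - ((e : ℝ) - f) * y.1| < ε →
        |(f : ℝ) * α.2 - e * β.2 - ((e : ℝ) - f) * y.2| < ε →
        (e : ℤ) ∣ h1 * α.1 + C.1 ∧ (e : ℤ) ∣ h1 * α.2 + C.2 ∧ Nat.Coprime h1 e := by
    intro f hf1 hfe hcop hfB α β hα1 hα2
    have hn := hz f hfe α β hα1 hα2
    have hm : (h1 : ℤ) * (f * α.1 - e * β.1) = ((e - f : ℕ) : ℤ) * C.1 ∧
        (h1 : ℤ) * (f * α.2 - e * β.2) = ((e - f : ℕ) : ℤ) * C.2 := by
      by_contra hcon
      apply hfB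
      rw [hBad, Finset.mem_filter]
      exact ⟨Finset.mem_range.mpr hfe, hf1, _, hn, hcon⟩
    obtain ⟨hm1, hm2⟩ := hm
    have hcast : ((e - f : ℕ) : ℤ) = e - f := by push_cast [Nat.cast_sub hfe.le]; ring
    rw [hcast] at hm1 hm2
    have hc2 : IsCoprime (e : ℤ) (f : ℤ) := Nat.isCoprime_iff_coprime.mpr hcop
    refine ⟨?_, ?_, ?_⟩
    · have : (e : ℤ) ∣ f * (h1 * α.1 + C.1) := ⟨h1 * β.1 + C.1, by linarith⟩
      exact hc2.dvd_of_dvd_mul_left this
    · have : (e : ℤ) ∣ f * (h1 * α.2 + C.2) := ⟨h1 * β.2 + C.2, by linarith⟩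
      exact hc2.dvd_of_dvd_mul_left this
    · have h8 : (h1 : ℤ) ∣ (e : ℤ) - f := by
        apply hdvd
        · exact ⟨_, hm1.symm⟩
        · exact ⟨_, hm2.symm⟩
      rw [← Nat.isCoprime_iff_coprime]
      obtain ⟨k, hk⟩ := h8
      obtain ⟨x, z, hxz⟩ := hc2
      -- x e + z f = 1, f = e - h1 k
      refine ⟨-z * k, x + z, ?_⟩
      have : (f : ℤ) = e - h1 * k := by linarith
      rw [this] at hxz
      linarith
  by_cases hcop : Nat.Coprime h1 e
  · obtain ⟨x, z, hxz⟩ := Nat.isCoprime_iff_coprime.mpr hcop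
    refine ⟨(-x * C.1, -x * C.2), Bad, hcard2, ?_⟩
    intro f hf1 hfe hcopf hfB α β hα1 hα2
    obtain ⟨g1, g2, -⟩ := hgood f hf1 hfe hcopf hfB α β hα1 hα2
    have key : ∀ a Cc : ℤ, (e : ℤ) ∣ h1 * a + Cc → a ≡ -x * Cc [ZMOD e] := by
      intro a Cc hd
      rw [Int.modEq_iff_dvd]
      obtain ⟨k, hk⟩ := hd
      -- -x Cc - a = -x (e k - h1 a) - a = -x e k + (x h1 - 1) a = - x e k - z e a
      refine ⟨-x * k - z * a, ?_⟩
      have : Cc = e * k - h1 * a := by linarith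
      rw [this]
      linear_combination (a : ℤ) * hxz
    exact ⟨key _ _ g1, key _ _ g2⟩
  · refine ⟨0, Bad, hcard2, ?_⟩
    intro f hf1 hfe hcopf hfB α β hα1 hα2
    exact absurd (hgood f hf1 hfe hcopf hfB α β hα1 hα2).2.2 hcop

end Pool.Agent.L5helper10.IK
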