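import Mathlib
import Pool.Agent.L5helper10.IK.Circle
import Pool.Agent.L5helper10.IK.Lattice
import Pool.Agent.L5helper10.IK.Cycles

/-!
# The overlaps of pairs on the torus
-/

set_option autoImplicit false
set_option maxHeartbeats 4000000

namespace Pool.Agent.L5helper10.IK

open MeasureTheory Finset

/-- the inequality for a pair with large `τ` -/
theorem pair_ineq (q r : ℕ) (hr : 0 < r) (hrq : r < q) (u : ℕ → ℝ) (hu : ∀ s, 0 ≤ u s)
    (hτ : (ee q r : ℝ) ^ (-(3 / 4) : ℝ) ≤ max (ff q r * u q) (ee q r * u r)) :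
    (min (u q / ee q r) (u r / ff q r)) ^ 2 ≤ u q * Real.sqrt (u q) * u r * W q r := by
  have he : 0 < ee q r := ee_pos _ _ (by omega)
  have hf : 0 < ff q r := ff_pos _ _ hr
  unfold W
  set e : ℝ := (ee q r : ℝ) with hedef
  set f : ℝ := (ff q r : ℝ) with hfdef
  have he' : 0 < e := by rw [hedef]; exact_mod_cast he
  have hf' : 0 < f := by rw [hfdef]; exact_mod_cast hf
  set x : ℝ := u q / e with hx
  set z : ℝ := u r / f with hz
  have hx0 : 0 ≤ x := div_nonneg (hu q) he'.le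
  have hz0 : 0 ≤ z := div_nonneg (hu r) hf'.le
  have hux : u q = e * x := by rw [hx]; field_simp
  have huz : u r = f * z := by rw [hz]; field_simp
  set s : ℝ := e ^ (7 / 8 : ℝ) * f ^ (1 / 2 : ℝ) with hs
  have hs0 : 0 < s := by rw [hs]; positivity
  -- right side
  have hR : u q * Real.sqrt (u q) * u r * (e ^ (-(5 / 8) : ℝ) * f ^ (-(1 / 2) : ℝ)) =
      s * (x * Real.sqrt x * z) := by
    rw [hux, huz, Real.sqrt_mul he'.le, hs]
    have e1 : e * Real.sqrt e * e ^ (-(5 / 8) : ℝ) = e ^ (7 / 8 : ℝ) := by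
      rw [Real.sqrt_eq_rpow]
      nth_rewrite 1 [← Real.rpow_one e]
      rw [← Real.rpow_add he', ← Real.rpow_add he']
      norm_num
    have e2 : f * f ^ (-(1 / 2) : ℝ) = f ^ (1 / 2 : ℝ) := by
      nth_rewrite 1 [← Real.rpow_one f]
      rw [← Real.rpow_add hf']
      norm_num
    rw [← e1, ← e2]
    ring
  rw [hR]
  -- s^2 max ≥ 1
  have hs2 : s ^ 2 = e ^ (3 / 4 : ℝ) * (e * f) := by
    rw [hs, mul_pow, ← Real.rpow_natCast (e ^ (7 / 8 : ℝ)) 2, ← Real.rpow_mul he'.le,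
      ← Real.rpow_natCast (f ^ (1 / 2 : ℝ)) 2, ← Real.rpow_mul hf'.le]
    have e3 : e ^ (7 / 8 * ((2 : ℕ) : ℝ) : ℝ) = e ^ (3 / 4 : ℝ) * e := by
      nth_rewrite 3 [← Real.rpow_one e]
      rw [← Real.rpow_add he']
      norm_num
    have e4 : f ^ (1 / 2 * ((2 : ℕ) : ℝ) : ℝ) = f := by norm_num
    rw [e3, e4]; ring
  have hmax : 1 ≤ s ^ 2 * max x z := by
    have h1 : max (f * u q) (e * u r) = (e * f) * max x z := by
      rw [hux, huz]
      rw [show f * (e * x) = (e * f) * x by ring, show e * (f * z) = (e * f) * z by ring]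
      rw [mul_max_of_nonneg _ _ (by positivity)]
    rw [h1] at hτ
    have h2 : e ^ (3 / 4 : ℝ) * e ^ (-(3 / 4) : ℝ) = 1 := by
      rw [← Real.rpow_add he']; norm_num
    rw [hs2]
    calc (1 : ℝ) = e ^ (3 / 4 : ℝ) * e ^ (-(3 / 4) : ℝ) := h2.symm
      _ ≤ e ^ (3 / 4 : ℝ) * (e * f * max x z) := mul_le_mul_of_nonneg_left hτ (by positivity)
      _ = _ := by ring
  rcases le_total x z with hxz | hxz
  · rw [min_eq_left hxz]
    rw [max_eq_right hxz] at hmax
    have h1 : 1 ≤ s * Real.sqrt z := by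
      have : Real.sqrt (s ^ 2 * z) = s * Real.sqrt z := by
        rw [Real.sqrt_mul (sq_nonneg s), Real.sqrt_sq hs0.le]
      rw [← this]
      exact Real.one_le_sqrt.mpr hmax
    have h2 : Real.sqrt x ≤ Real.sqrt z := Real.sqrt_le_sqrt hxz
    have h3 : x ^ 2 = x * (Real.sqrt x * Real.sqrt x) := by rw [Real.mul_self_sqrt hx0]; ring
    have h4 : z = Real.sqrt z * Real.sqrt z := (Real.mul_self_sqrt hz0).symm
    have hsx := Real.sqrt_nonneg x
    have hsz := Real.sqrt_nonneg z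
    calc x ^ 2 = x * (Real.sqrt x * Real.sqrt x) := h3
      _ ≤ x * (Real.sqrt x * Real.sqrt z) := by
        apply mul_le_mul_of_nonneg_left _ hx0
        exact mul_le_mul_of_nonneg_left h2 hsx
      _ = x * (Real.sqrt x * Real.sqrt z) * 1 := by ring
      _ ≤ x * (Real.sqrt x * Real.sqrt z) * (s * Real.sqrt z) := by
        apply mul_le_mul_of_nonneg_left h1
        positivity
      _ = s * (x * Real.sqrt x * (Real.sqrt z * Real.sqrt z)) := by ring
      _ = s * (x * Real.sqrt x * z) := by rw [← h4]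
  · rw [min_eq_right hxz]
    rw [max_eq_left hxz] at hmax
    have h1 : 1 ≤ s * Real.sqrt x := by
      have : Real.sqrt (s ^ 2 * x) = s * Real.sqrt x := by
        rw [Real.sqrt_mul (sq_nonneg s), Real.sqrt_sq hs0.le]
      rw [← this]
      exact Real.one_le_sqrt.mpr hmax
    calc z ^ 2 = z * z := sq z
      _ ≤ x * z := mul_le_mul_of_nonneg_right hxz hz0
      _ = x * z * 1 := by ring
      _ ≤ x * z * (s * Real.sqrt x) := mul_le_mul_of_nonneg_left h1 (mul_nonneg hx0 hz0)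
      _ = s * (x * Real.sqrt x * z) := by ring

/-- the set on the torus -/
def A (y : ℝ × ℝ) (u : ℕ → ℝ) (q : ℕ) : Set (UnitAddCircle × UnitAddCircle) :=
  D q (y.1 : UnitAddCircle) (u q) ×ˢ D q (y.2 : UnitAddCircle) (u q)

/-- the part of it given by the numerators in a class modulo `e` -/
noncomputable def Rm (y : ℝ × ℝ) (u : ℕ → ℝ) (a : ℕ → ℤ × ℤ) (q e : ℕ) : Set (UnitAddCircle × UnitAddCircle) :=
  D (q / e) ((((a e).1 + y.1) / e : ℝ) : UnitAddCircle) (u q / e) ×ˢ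
    D (q / e) ((((a e).2 + y.2) / e : ℝ) : UnitAddCircle) (u q / e)

/-- what remains -/
noncomputable def A' (y : ℝ × ℝ) (u : ℕ → ℝ) (a : ℕ → ℤ × ℤ) (k q : ℕ) : Set (UnitAddCircle × UnitAddCircle) :=
  A y u q \ ⋃ e ∈ q.divisors.filter (fun e => k < e), Rm y u a q e

theorem A_meas (y : ℝ × ℝ) (u : ℕ → ℝ) (q : ℕ) : MeasurableSet (A y u q) :=
  (D_meas _ _ _).prod (D_meas _ _ _)

theorem Rm_meas (y : ℝ × ℝ) (u : ℕ → ℝ) (a : ℕ → ℤ × ℤ) (q e : ℕ) : MeasurableSet (Rm y u a q e) :=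
  (D_meas _ _ _).prod (D_meas _ _ _)

theorem A'_meas (y : ℝ × ℝ) (u : ℕ → ℝ) (a : ℕ → ℤ × ℤ) (k q : ℕ) : MeasurableSet (A' y u a k q) :=
  (A_meas y u q).diff (Finset.measurableSet_biUnion _ fun e _ => Rm_meas y u a q e)

theorem real_A (y : ℝ × ℝ) (u : ℕ → ℝ) (q : ℕ) (hq : 0 < q) (h0 : 0 ≤ u q) (h1 : u q ≤ 1 / 2) :
    volume.real (A y u q) = 4 * u q ^ 2 := by
  unfold A
  rw [show (volume : Measure (UnitAddCircle × UnitAddCircle)) = volume.prod volume from rfl,
    measureReal_prod_prod, real_D q hq _ _ h0 h1, real_D q hq _ _ h0 h1]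
  ring

theorem real_Rm (y : ℝ × ℝ) (u : ℕ → ℝ) (a : ℕ → ℤ × ℤ) (q e : ℕ) (hq : 0 < q) (he : e ∣ q) (h0 : 0 ≤ u q)
    (h1 : u q ≤ 1 / 2) : volume.real (Rm y u a q e) = 4 * u q ^ 2 / (e : ℝ) ^ 2 := by
  have he0 : 0 < e := Nat.pos_of_dvd_of_pos he hq
  have he1 : (1 : ℝ) ≤ e := by exact_mod_cast he0
  have hqe : 0 < q / e := Nat.div_pos (Nat.le_of_dvd hq he) he0
  have h2 : u q / e ≤ 1 / 2 := (div_le_self h0 he1).trans h1
  have h3 : 0 ≤ u q / e := by positivity
  unfold Rm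
  rw [show (volume : Measure (UnitAddCircle × UnitAddCircle)) = volume.prod volume from rfl,
    measureReal_prod_prod, real_D _ hqe _ _ h3 h2, real_D _ hqe _ _ h3 h2]
  ring

theorem real_A' (y : ℝ × ℝ) (u : ℕ → ℝ) (a : ℕ → ℤ × ℤ) (k q : ℕ) (hk : 0 < k) (hq : 0 < q) (h0 : 0 ≤ u q)
    (h1 : u q ≤ 1 / 2) : 4 * u q ^ 2 * (1 - 1 / k) ≤ volume.real (A' y u a k q) := by
  have h2 : volume.real (A y u q) ≤ volume.real (A' y u a k q) +
      ∑ e ∈ q.divisors.filter (fun e => k < e), volume.real (Rm y u a q e) := by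
    have h3 : A y u q ⊆ A' y u a k q ∪ ⋃ e ∈ q.divisors.filter (fun e => k < e), Rm y u a q e := by
      intro x hx
      by_cases h : x ∈ ⋃ e ∈ q.divisors.filter (fun e => k < e), Rm y u a q e
      · exact Or.inr h
      · exact Or.inl ⟨hx, h⟩
    calc volume.real (A y u q) ≤ volume.real (A' y u a k q ∪ ⋃ e ∈ q.divisors.filter (fun e => k < e), Rm y u a q e) :=
          measureReal_mono h3
      _ ≤ volume.real (A' y u a k q) + volume.real (⋃ e ∈ q.divisors.filter (fun e => k < e), Rm y u a q e) :=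
          measureReal_union_le _ _
      _ ≤ _ := by
          have := measureReal_biUnion_finset_le (μ := volume) (q.divisors.filter (fun e => k < e)) (fun e => Rm y u a q e)
          linarith
  have h3 : ∑ e ∈ q.divisors.filter (fun e => k < e), volume.real (Rm y u a q e) ≤ 4 * u q ^ 2 * (1 / k) := by
    calc ∑ e ∈ q.divisors.filter (fun e => k < e), volume.real (Rm y u a q e)
        = ∑ e ∈ q.divisors.filter (fun e => k < e), 4 * u q ^ 2 * (((e : ℝ) ^ 2)⁻¹) := by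
          refine Finset.sum_congr rfl fun e he => ?_
          rw [Finset.mem_filter] at he
          rw [real_Rm y u a q e hq (Nat.dvd_of_mem_divisors he.1) h0 h1]
          ring
      _ = 4 * u q ^ 2 * ∑ e ∈ q.divisors.filter (fun e => k < e), (((e : ℝ) ^ 2)⁻¹) := by
          rw [Finset.mul_sum]
      _ ≤ 4 * u q ^ 2 * (1 / k) := by
          apply mul_le_mul_of_nonneg_left _ (by positivity)
          have hsub : q.divisors.filter (fun e => k < e) ⊆ Finset.Ioc k (max k q) := by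
            intro e he
            rw [Finset.mem_filter] at he
            rw [Finset.mem_Ioc]
            exact ⟨he.2, (Nat.divisor_le he.1).trans (le_max_right _ _)⟩
          calc ∑ e ∈ q.divisors.filter (fun e => k < e), (((e : ℝ) ^ 2)⁻¹)
              ≤ ∑ e ∈ Finset.Ioc k (max k q), (((e : ℝ) ^ 2)⁻¹) :=
                Finset.sum_le_sum_of_subset_of_nonneg hsub fun e _ _ => by positivity
            _ ≤ (k : ℝ)⁻¹ - ((max k q : ℕ) : ℝ)⁻¹ := sum_Ioc_inv_sq_le_sub hk.ne' (le_max_left _ _)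
            _ ≤ 1 / k := by
                have : (0 : ℝ) ≤ ((max k q : ℕ) : ℝ)⁻¹ := by positivity
                rw [one_div]; linarith
  rw [real_A y u q hq h0 h1] at h2
  linarith

theorem overlap_A (y : ℝ × ℝ) (u : ℕ → ℝ) (q r : ℕ) (hq : 0 < q) (hr : 0 < r) (h0 : ∀ s, 0 ≤ u s)
    (h1 : ∀ s, u s ≤ 1 / 2) :
    volume.real (A y u q ∩ A y u r) ≤
      (4 * u q * u r + 2 * min (u q / ee q r) (u r / ff q r)) ^ 2 := by
  have hg : 0 < Nat.gcd q r := Nat.gcd_pos_of_pos_left _ hq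
  have key : ∀ z : UnitAddCircle, volume.real (D q z (u q) ∩ D r z (u r)) ≤
      4 * u q * u r + 2 * min (u q / ee q r) (u r / ff q r) := by
    intro z
    have := overlap (Nat.gcd q r) (ee q r) (ff q r) hg (ee_pos q r hq) (ff_pos q r hr)
      (coprime_ef q r hq) z z (u q) (u r) (h0 q) (h1 q) (h0 r) (h1 r)
    rwa [ee_mul, ff_mul] at this
  unfold A
  rw [Set.prod_inter_prod, show (volume : Measure (UnitAddCircle × UnitAddCircle)) = volume.prod volume from rfl,
    measureReal_prod_prod, sq]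
  exact mul_le_mul (key _) (key _) measureReal_nonneg (le_trans measureReal_nonneg (key (y.1 : UnitAddCircle)))

/-- pairs with small `τ` do not overlap, but for few exceptions -/
theorem eliminate (y : ℝ × ℝ) (u : ℕ → ℝ) (h0 : ∀ s, 0 ≤ u s) (a : ℕ → ℤ × ℤ) (Bad : ℕ → Finset ℕ) (k : ℕ)
    (hbad : ∀ e : ℕ, 1 ≤ e → ∀ f : ℕ, 1 ≤ f → f < e → Nat.Coprime e f → f ∉ Bad e → ∀ α β : ℤ × ℤ,
        |(f : ℝ) * α.1 - e * β.1 - ((e : ℝ) - f) * y.1| < 2 * (e : ℝ) ^ (-(3 / 4) : ℝ) →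
        |(f : ℝ) * α.2 - e * β.2 - ((e : ℝ) - f) * y.2| < 2 * (e : ℝ) ^ (-(3 / 4) : ℝ) →
        α.1 ≡ (a e).1 [ZMOD e] ∧ α.2 ≡ (a e).2 [ZMOD e])
    (q r : ℕ) (hr : 0 < r) (hrq : r < q) (hke : k < ee q r) (hf : ff q r ∉ Bad (ee q r))
    (hτ : max (ff q r * u q) (ee q r * u r) < (ee q r : ℝ) ^ (-(3 / 4) : ℝ)) :
    A' y u a k q ∩ A' y u a k r = ∅ := by
  have hq : 0 < q := by omega
  have he : 0 < ee q r := ee_pos _ _ hq
  have hfp : 0 < ff q r := ff_pos _ _ hr
  have hfe : ff q r < ee q r := ff_lt_ee q r hrq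
  have hcross := cross q r
  have hem : Nat.gcd q r * ee q r = q := ee_mul q r
  have hcop := coprime_ef q r hq
  set e := ee q r with hedef
  set f := ff q r with hfdef
  have he' : (0 : ℝ) < e := by exact_mod_cast he
  have hf' : (0 : ℝ) < f := by exact_mod_cast hfp
  have hcr : (q : ℝ) * f = r * e := by exact_mod_cast hcross
  have hdvd : e ∣ q := ⟨Nat.gcd q r, by rw [mul_comm]; exact hem.symm⟩
  ext x
  simp only [Set.mem_inter_iff, Set.mem_empty_iff_false, iff_false, not_and]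
  intro hxq hxr
  have hx1 : x ∈ A y u q := hxq.1
  have hx2 : x ∈ A y u r := hxr.1
  apply hxq.2
  rw [Set.mem_iUnion₂]
  refine ⟨e, ?_, ?_⟩
  · rw [Finset.mem_filter, Nat.mem_divisors]
    exact ⟨⟨hdvd, hq.ne'⟩, hke⟩
  -- one coordinate
  have key : ∀ (t : UnitAddCircle) (p : ℝ), t ∈ D q (p : UnitAddCircle) (u q) → t ∈ D r (p : UnitAddCircle) (u r) →
      ∃ (X : ℝ) (α β : ℤ), t = (X : UnitAddCircle) ∧ |q * X - p - α| < u q ∧
        |(f : ℝ) * α - e * β - ((e : ℝ) - f) * p| < 2 * (e : ℝ) ^ (-(3 / 4) : ℝ) := by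
    intro t p h1 h2
    obtain ⟨X, rfl⟩ := QuotientAddGroup.mk_surjective t
    have h1' : ‖(((q : ℝ) * X - p : ℝ) : UnitAddCircle)‖ < u q := by
      have e1 : (((q : ℝ) * X - p : ℝ) : UnitAddCircle) = q • (X : UnitAddCircle) - (p : UnitAddCircle) := by
        rw [← AddCircle.coe_nsmul, nsmul_eq_mul, ← AddCircle.coe_sub]
      rw [e1]; exact h1
    have h2' : ‖(((r : ℝ) * X - p : ℝ) : UnitAddCircle)‖ < u r := by
      have e1 : (((r : ℝ) * X - p : ℝ) : UnitAddCircle) = r • (X : UnitAddCircle) - (p : UnitAddCircle) := by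
        rw [← AddCircle.coe_nsmul, nsmul_eq_mul, ← AddCircle.coe_sub]
      rw [e1]; exact h2
    obtain ⟨α, hα⟩ := (norm_lt_iff _ _).mp h1'
    obtain ⟨β, hβ⟩ := (norm_lt_iff _ _).mp h2'
    refine ⟨X, α, β, rfl, hα, ?_⟩
    have e2 : (f : ℝ) * α - e * β - ((e : ℝ) - f) * p = e * (r * X - p - β) - f * (q * X - p - α) := by
      linear_combination X * hcr
    rw [e2]
    calc |(e : ℝ) * (r * X - p - β) - f * (q * X - p - α)|
        ≤ |(e : ℝ) * (r * X - p - β)| + |f * (q * X - p - α)| := abs_sub _ _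
      _ = e * |r * X - p - β| + f * |q * X - p - α| := by
        rw [abs_mul, abs_mul, abs_of_pos he', abs_of_pos hf']
      _ < e * u r + f * u q := add_lt_add (mul_lt_mul_of_pos_left hβ he') (mul_lt_mul_of_pos_left hα hf')
      _ ≤ 2 * (e : ℝ) ^ (-(3 / 4) : ℝ) := by
        have h3 := (le_max_left ((f : ℝ) * u q) (e * u r)).trans hτ.le
        have h4 := (le_max_right ((f : ℝ) * u q) (e * u r)).trans hτ.le
        linarith
  obtain ⟨X1, α1, β1, hX1, hα1, hc1⟩ := key x.1 y.1 hx1.1 hx2.1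
  obtain ⟨X2, α2, β2, hX2, hα2, hc2⟩ := key x.2 y.2 hx1.2 hx2.2
  obtain ⟨m1, m2⟩ := hbad e he f hfp hfe hcop hf (α1, α2) (β1, β2) hc1 hc2
  have key2 : ∀ (t : UnitAddCircle) (p X : ℝ) (α c : ℤ), t = (X : UnitAddCircle) → |q * X - p - α| < u q →
      α ≡ c [ZMOD e] → t ∈ D (q / e) (((c + p) / e : ℝ) : UnitAddCircle) (u q / e) := by
    intro t p X α c ht h1 h2
    obtain ⟨j, hj⟩ := h2.symm.dvd
    show ‖(q / e) • t - (((c + p) / e : ℝ) : UnitAddCircle)‖ < u q / e
    rw [ht, ← AddCircle.coe_nsmul, nsmul_eq_mul, ← AddCircle.coe_sub, norm_lt_iff]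
    refine ⟨j, ?_⟩
    have hqe : ((q / e : ℕ) : ℝ) = q / e := by
      rw [Nat.cast_div hdvd he'.ne']
    rw [hqe]
    have hjr : (α : ℝ) - c = e * j := by exact_mod_cast hj
    have e1 : (q : ℝ) / e * X - (c + p) / e - j = (q * X - p - α) / e := by
      field_simp
      linarith
    rw [e1, abs_div, abs_of_pos he']
    exact div_lt_div_of_pos_right h1 he'
  exact ⟨key2 x.1 y.1 X1 α1 _ hX1 hα1 m1, key2 x.2 y.2 X2 α2 _ hX2 hα2 m2⟩

/-- the bound for a pair -/
theorem pair_bound (y : ℝ × ℝ) (u : ℕ → ℝ) (h0 : ∀ s, 0 ≤ u s) (h1 : ∀ s, u s ≤ 1 / 2)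
    (a : ℕ → ℤ × ℤ) (Bad : ℕ → Finset ℕ) (k : ℕ) (T : ℝ) (hT : 1 ≤ T)
    (hbad : ∀ e : ℕ, 1 ≤ e → ∀ f : ℕ, 1 ≤ f → f < e → Nat.Coprime e f → f ∉ Bad e → ∀ α β : ℤ × ℤ,
        |(f : ℝ) * α.1 - e * β.1 - ((e : ℝ) - f) * y.1| < 2 * (e : ℝ) ^ (-(3 / 4) : ℝ) →
        |(f : ℝ) * α.2 - e * β.2 - ((e : ℝ) - f) * y.2| < 2 * (e : ℝ) ^ (-(3 / 4) : ℝ) →
        α.1 ≡ (a e).1 [ZMOD e] ∧ α.2 ≡ (a e).2 [ZMOD e])
    (q r : ℕ) (hr : 0 < r) (hrq : r < q) :
    volume.real (A' y u a k q ∩ A' y u a k r) ≤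
      16 * (1 + 1 / (2 * T)) ^ 2 * (u q ^ 2 * u r ^ 2) +
      4 * (2 * T + 1) ^ 2 * (u q ^ 2 * ((if ee q r ≤ k then 1 else 0) + (if ff q r ∈ Bad (ee q r) then 1 else 0)) /
        (ee q r : ℝ) ^ 2 + u q * Real.sqrt (u q) * u r * W q r) := by
  have hq : 0 < q := by omega
  have he : 0 < ee q r := ee_pos _ _ hq
  have hfp : 0 < ff q r := ff_pos _ _ hr
  have he' : (0 : ℝ) < ee q r := by exact_mod_cast he
  have hf' : (0 : ℝ) < ff q r := by exact_mod_cast hfp
  have hW := W_nonneg q r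
  have huq := h0 q
  have hur := h0 r
  have hsq := Real.sqrt_nonneg (u q)
  set m : ℝ := min (u q / ee q r) (u r / ff q r) with hm
  set τ : ℝ := max (ff q r * u q) (ee q r * u r) with hτdef
  have hm0 : 0 ≤ m := by rw [hm]; exact le_min (by positivity) (by positivity)
  have hτ0 : 0 ≤ τ := le_trans (by positivity) (le_max_left _ _)
  have hmτ : u q * u r = m * τ := by
    rw [hm, hτdef]
    rcases le_total (u q / ee q r) (u r / ff q r) with h | h
    · rw [min_eq_left h, max_eq_right]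
      · field_simp
      · rw [div_le_div_iff₀ he' hf'] at h
        linarith
    · rw [min_eq_right h, max_eq_left]
      · field_simp
      · rw [div_le_div_iff₀ hf' he'] at h
        linarith
  have hov : volume.real (A' y u a k q ∩ A' y u a k r) ≤ (4 * u q * u r + 2 * m) ^ 2 := by
    refine le_trans (measureReal_mono ?_) (overlap_A y u q r hq hr h0 h1)
    exact Set.inter_subset_inter Set.sdiff_subset Set.sdiff_subset
  have hY0 : 0 ≤ u q ^ 2 * (((if ee q r ≤ k then 1 else 0) : ℝ) + (if ff q r ∈ Bad (ee q r) then 1 else 0)) /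
        (ee q r : ℝ) ^ 2 := by
    apply div_nonneg _ (by positivity)
    apply mul_nonneg (by positivity)
    split_ifs <;> norm_num
  have hZ0 : 0 ≤ u q * Real.sqrt (u q) * u r * W q r := by positivity
  by_cases hc1 : T ≤ τ
  · -- large τ
    have h2 : 4 * u q * u r + 2 * m ≤ 4 * (u q * u r) * (1 + 1 / (2 * T)) := by
      have h3 : m * T ≤ u q * u r := by rw [hmτ]; exact mul_le_mul_of_nonneg_left hc1 hm0
      have h4 : 4 * (u q * u r) * (1 + 1 / (2 * T)) = 4 * (u q * u r) + 2 * ((u q * u r) / T) := by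
        field_simp
        ring
      rw [h4]
      have h5 : m ≤ (u q * u r) / T := by rw [le_div_iff₀ (by linarith)]; exact h3
      linarith
    have h3 : (4 * u q * u r + 2 * m) ^ 2 ≤ (4 * (u q * u r) * (1 + 1 / (2 * T))) ^ 2 :=
      pow_le_pow_left₀ (by positivity) h2 2
    have h4 : (4 * (u q * u r) * (1 + 1 / (2 * T))) ^ 2 = 16 * (1 + 1 / (2 * T)) ^ 2 * (u q ^ 2 * u r ^ 2) := by ring
    have h5 : 0 ≤ 4 * (2 * T + 1) ^ 2 * (u q ^ 2 * (((if ee q r ≤ k then 1 else 0) : ℝ) + (if ff q r ∈ Bad (ee q r) then 1 else 0)) /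
        (ee q r : ℝ) ^ 2 + u q * Real.sqrt (u q) * u r * W q r) := by positivity
    linarith
  · push Not at hc1
    have hmain : 0 ≤ 16 * (1 + 1 / (2 * T)) ^ 2 * (u q ^ 2 * u r ^ 2) := by positivity
    have h2 : (4 * u q * u r + 2 * m) ^ 2 ≤ 4 * (2 * T + 1) ^ 2 * m ^ 2 := by
      have h3 : 4 * u q * u r + 2 * m = 2 * m * (2 * τ + 1) := by
        have : 4 * u q * u r = 4 * (u q * u r) := by ring
        rw [this, hmτ]; ring
      have h4 : 2 * m * (2 * τ + 1) ≤ 2 * m * (2 * T + 1) := by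
        apply mul_le_mul_of_nonneg_left _ (by positivity)
        linarith
      calc (4 * u q * u r + 2 * m) ^ 2 ≤ (2 * m * (2 * T + 1)) ^ 2 :=
            pow_le_pow_left₀ (by positivity) (by rw [h3]; exact h4) 2
        _ = _ := by ring
    have hm2 : m ^ 2 ≤ u q ^ 2 / (ee q r : ℝ) ^ 2 := by
      rw [← div_pow]
      exact pow_le_pow_left₀ hm0 (min_le_left _ _) 2
    by_cases hc2 : ee q r ≤ k ∨ ff q r ∈ Bad (ee q r)
    · have h3 : m ^ 2 ≤ u q ^ 2 * (((if ee q r ≤ k then 1 else 0) : ℝ) + (if ff q r ∈ Bad (ee q r) then 1 else 0)) /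
          (ee q r : ℝ) ^ 2 := by
        refine hm2.trans ?_
        apply div_le_div_of_nonneg_right _ (by positivity)
        have h4 : (1 : ℝ) ≤ ((if ee q r ≤ k then 1 else 0) : ℝ) + (if ff q r ∈ Bad (ee q r) then 1 else 0) := by
          rcases hc2 with h | h
          · rw [if_pos h]; split_ifs <;> norm_num
          · rw [if_pos h]; split_ifs <;> norm_num
        nlinarith [sq_nonneg (u q)]
      have h4 : 4 * (2 * T + 1) ^ 2 * m ^ 2 ≤ 4 * (2 * T + 1) ^ 2 * (u q ^ 2 * (((if ee q r ≤ k then 1 else 0) : ℝ) + (if ff q r ∈ Bad (ee q r) then 1 else 0)) /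
        (ee q r : ℝ) ^ 2 + u q * Real.sqrt (u q) * u r * W q r) := by
        apply mul_le_mul_of_nonneg_left _ (by positivity)
        linarith
      linarith
    · rw [not_or] at hc2
      obtain ⟨hc3, hc4⟩ := hc2
      by_cases hc5 : (ee q r : ℝ) ^ (-(3 / 4) : ℝ) ≤ τ
      · have h3 := pair_ineq q r hr hrq u h0 hc5
        have h4 : 4 * (2 * T + 1) ^ 2 * m ^ 2 ≤ 4 * (2 * T + 1) ^ 2 * (u q ^ 2 * (((if ee q r ≤ k then 1 else 0) : ℝ) + (if ff q r ∈ Bad (ee q r) then 1 else 0)) /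
          (ee q r : ℝ) ^ 2 + u q * Real.sqrt (u q) * u r * W q r) := by
          apply mul_le_mul_of_nonneg_left _ (by positivity)
          linarith
        linarith
      · push Not at hc5
        have h3 := eliminate y u h0 a Bad k hbad q r hr hrq (by omega) hc4 hc5
        rw [h3, measureReal_empty]
        positivity

end Pool.Agent.L5helper10.IK
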