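import Mathlib
import Pool.Agent.L5helper10.IK.Pairs

/-!
# The second moment on the torus
-/

set_option autoImplicit false
set_option maxHeartbeats 4000000

namespace Pool.Agent.L5helper10.IK

open MeasureTheory Finset

/-- the inequality of Chung and Erdős -/
theorem chung_erdos {Ω : Type} [MeasurableSpace Ω] (μ : Measure Ω) [IsFiniteMeasure μ] (J : Finset ℕ)
    (B : ℕ → Set Ω) (hB : ∀ j, MeasurableSet (B j)) (U : Set Ω) (hU : MeasurableSet U) (hsub : ∀ j ∈ J, B j ⊆ U) :
    (∑ j ∈ J, μ.real (B j)) ^ 2 ≤ μ.real U * ∑ j ∈ J, ∑ k ∈ J, μ.real (B j ∩ B k) := by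
  classical
  have hint : ∀ s : Set Ω, MeasurableSet s → Integrable (s.indicator (fun _ => (1 : ℝ))) μ :=
    fun s hs => (integrable_const (1 : ℝ)).indicator hs
  have hval : ∀ s : Set Ω, MeasurableSet s → ∫ x, s.indicator (fun _ => (1 : ℝ)) x ∂μ = μ.real s := by
    intro s hs
    rw [integral_indicator_const _ hs]; simp
  set S1 := ∑ j ∈ J, μ.real (B j) with hS1
  set S2 := ∑ j ∈ J, ∑ k ∈ J, μ.real (B j ∩ B k) with hS2
  have key : ∀ t : ℝ, 0 ≤ S2 - 2 * t * S1 + t ^ 2 * μ.real U := by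
    intro t
    have h0 : 0 ≤ ∫ x, ((∑ j ∈ J, (B j).indicator (fun _ => (1 : ℝ)) x)
        - t * U.indicator (fun _ => (1 : ℝ)) x) ^ 2 ∂μ := integral_nonneg (fun x => sq_nonneg _)
    have hpt : ∀ x : Ω, ((∑ j ∈ J, (B j).indicator (fun _ => (1 : ℝ)) x)
        - t * U.indicator (fun _ => (1 : ℝ)) x) ^ 2 =
        (∑ j ∈ J, ∑ k ∈ J, (B j ∩ B k).indicator (fun _ => (1 : ℝ)) x)
        - 2 * t * (∑ j ∈ J, (B j).indicator (fun _ => (1 : ℝ)) x)
        + t ^ 2 * U.indicator (fun _ => (1 : ℝ)) x := by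
      intro x
      have e1 : (∑ j ∈ J, (B j).indicator (fun _ => (1 : ℝ)) x) ^ 2 =
          ∑ j ∈ J, ∑ k ∈ J, (B j ∩ B k).indicator (fun _ => (1 : ℝ)) x := by
        rw [sq, Finset.sum_mul_sum]
        refine Finset.sum_congr rfl fun j _ => Finset.sum_congr rfl fun k _ => ?_
        by_cases h1 : x ∈ B j <;> by_cases h2 : x ∈ B k <;> simp [Set.indicator, h1, h2]
      have e2 : (∑ j ∈ J, (B j).indicator (fun _ => (1 : ℝ)) x) * U.indicator (fun _ => (1 : ℝ)) x
          = ∑ j ∈ J, (B j).indicator (fun _ => (1 : ℝ)) x := by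
        rw [Finset.sum_mul]
        refine Finset.sum_congr rfl fun j hj => ?_
        by_cases h1 : x ∈ B j
        · have h2 : x ∈ U := hsub j hj h1
          simp [Set.indicator, h1, h2]
        · simp [Set.indicator, h1]
      have e3 : U.indicator (fun _ => (1 : ℝ)) x ^ 2 = U.indicator (fun _ => (1 : ℝ)) x := by
        by_cases h2 : x ∈ U <;> simp [Set.indicator, h2]
      calc _ = (∑ j ∈ J, (B j).indicator (fun _ => (1 : ℝ)) x) ^ 2
            - 2 * t * ((∑ j ∈ J, (B j).indicator (fun _ => (1 : ℝ)) x)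
              * U.indicator (fun _ => (1 : ℝ)) x)
            + t ^ 2 * (U.indicator (fun _ => (1 : ℝ)) x ^ 2) := by ring
        _ = _ := by rw [e1, e2, e3]
    have hI2 : Integrable (fun x => ∑ j ∈ J, ∑ k ∈ J, (B j ∩ B k).indicator (fun _ => (1 : ℝ)) x) μ :=
      integrable_finsetSum _ fun j _ => integrable_finsetSum _ fun k _ => hint _ ((hB j).inter (hB k))
    have hI1 : Integrable (fun x => ∑ j ∈ J, (B j).indicator (fun _ => (1 : ℝ)) x) μ :=
      integrable_finsetSum _ fun j _ => hint _ (hB j)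
    have hv : ∫ x, ((∑ j ∈ J, (B j).indicator (fun _ => (1 : ℝ)) x)
        - t * U.indicator (fun _ => (1 : ℝ)) x) ^ 2 ∂μ = S2 - 2 * t * S1 + t ^ 2 * μ.real U := by
      rw [integral_congr_ae (Filter.Eventually.of_forall hpt)]
      have hA : Integrable (fun x => (∑ j ∈ J, ∑ k ∈ J, (B j ∩ B k).indicator (fun _ => (1 : ℝ)) x)
        - 2 * t * (∑ j ∈ J, (B j).indicator (fun _ => (1 : ℝ)) x)) μ := hI2.sub (hI1.const_mul _)
      have hBt : Integrable (fun x => t ^ 2 * U.indicator (fun _ => (1 : ℝ)) x) μ :=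
        (hint U hU).const_mul _
      have hCt : Integrable (fun x => 2 * t * (∑ j ∈ J, (B j).indicator (fun _ => (1 : ℝ)) x)) μ :=
        hI1.const_mul _
      rw [integral_add hA hBt, integral_sub hI2 hCt, integral_const_mul, integral_const_mul, hval U hU]
      congr 1
      congr 1
      · rw [integral_finsetSum _ (fun j _ => integrable_finsetSum _ fun k _ => hint _ ((hB j).inter (hB k)))]
        refine Finset.sum_congr rfl fun j _ => ?_
        rw [integral_finsetSum _ (fun k _ => hint _ ((hB j).inter (hB k)))]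
        exact Finset.sum_congr rfl fun k _ => hval _ ((hB j).inter (hB k))
      · rw [integral_finsetSum _ (fun j _ => hint _ (hB j))]
        congr 1
        exact Finset.sum_congr rfl fun j _ => hval _ (hB j)
    rw [hv] at h0
    exact h0
  have hU0 : 0 ≤ μ.real U := measureReal_nonneg
  have hS20 : 0 ≤ S2 := Finset.sum_nonneg fun j _ => Finset.sum_nonneg fun k _ => measureReal_nonneg
  rcases hU0.eq_or_lt with h | h
  · have hz : ∀ j ∈ J, μ.real (B j) = 0 := by
      intro j hj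
      have : μ.real (B j) ≤ μ.real U := measureReal_mono (hsub j hj)
      rw [← h] at this
      exact le_antisymm this measureReal_nonneg
    have : S1 = 0 := Finset.sum_eq_zero hz
    rw [this]
    have h00 := mul_nonneg hU0 hS20
    simpa using h00
  · have := key (S1 / μ.real U)
    have h2 : S2 - 2 * (S1 / μ.real U) * S1 + (S1 / μ.real U) ^ 2 * μ.real U = S2 - S1 ^ 2 / μ.real U := by
      field_simp
      ring
    rw [h2] at this
    have h3 : S1 ^ 2 / μ.real U ≤ S2 := by linarith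
    rw [div_le_iff₀ h] at h3
    linarith [mul_comm S2 (μ.real U)]

/-- the contribution of the exceptional pairs -/
theorem exceptional (Bad : ℕ → Finset ℕ)
    (hB : ∀ e : ℕ, 1 ≤ e → (#(Bad e) : ℝ) ≤ 729 * (e : ℝ) ^ (3 / 4 : ℝ)) (k : ℕ) :
    ∃ K : ℝ, 0 < K ∧ ∀ S : Finset ℕ, (∀ s ∈ S, 0 < s) → ∀ q : ℕ, 0 < q →
      ∑ r ∈ S.filter (fun r => r < q), (((if ee q r ≤ k then 1 else 0) : ℝ) +
        (if ff q r ∈ Bad (ee q r) then 1 else 0)) / (ee q r : ℝ) ^ 2 ≤ K := by
  classical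
  have hsum : Summable (fun n : ℕ => (n : ℝ) ^ (-(5 / 4) : ℝ)) :=
    Real.summable_nat_rpow.mpr (by norm_num)
  have ht0 : 0 ≤ ∑' n : ℕ, (n : ℝ) ^ (-(5 / 4) : ℝ) := tsum_nonneg fun n => by positivity
  refine ⟨(k + 729) * (∑' n : ℕ, (n : ℝ) ^ (-(5 / 4) : ℝ)) + 1, by positivity, ?_⟩
  intro S hS q hq
  set G : ℕ × ℕ → ℝ := fun z => (((if z.1 ≤ k then 1 else 0) : ℝ) +
        (if z.2 ∈ Bad z.1 then 1 else 0)) / (z.1 : ℝ) ^ 2 with hG
  have hG0 : ∀ z, 0 ≤ G z := by
    intro z
    simp only [hG]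
    apply div_nonneg _ (by positivity)
    split_ifs <;> norm_num
  set P : Finset (ℕ × ℕ) := (Finset.Icc 1 q).sigma (fun e => range e) |>.image (fun z => (z.1, z.2)) with hP
  have hmaps : ∀ r ∈ S.filter (fun r => r < q), (ee q r, ff q r) ∈ (Finset.Icc 1 q) ×ˢ (Finset.range (q + 1)) ∧
      ff q r < ee q r := by
    intro r hr
    rw [Finset.mem_filter] at hr
    have h1 := ee_pos q r hq
    have h2 := ff_lt_ee q r hr.2
    have h3 : ee q r ≤ q := Nat.div_le_self _ _
    rw [Finset.mem_product, Finset.mem_Icc, Finset.mem_range]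
    exact ⟨⟨⟨h1, h3⟩, by simp only; omega⟩, h2⟩
  have hinj : Set.InjOn (fun r => (ee q r, ff q r)) (S.filter (fun r => r < q)) := by
    intro r1 h1 r2 h2 heq
    simp only [Prod.mk.injEq] at heq
    have c1 := cross q r1
    have c2 := cross q r2
    rw [heq.1, heq.2] at c1
    have := ee_pos q r2 hq
    exact Nat.eq_of_mul_eq_mul_right this (by rw [← c1, ← c2])
  have h1 : ∑ r ∈ S.filter (fun r => r < q), (((if ee q r ≤ k then 1 else 0) : ℝ) +
        (if ff q r ∈ Bad (ee q r) then 1 else 0)) / (ee q r : ℝ) ^ 2 =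
      ∑ z ∈ (S.filter (fun r => r < q)).image (fun r => (ee q r, ff q r)), G z := by
    rw [Finset.sum_image hinj]
  have h2 : (S.filter (fun r => r < q)).image (fun r => (ee q r, ff q r)) ⊆
      ((Finset.Icc 1 q) ×ˢ (Finset.range (q + 1))).filter (fun z => z.2 < z.1) := by
    intro z hz
    rw [Finset.mem_image] at hz
    obtain ⟨r, hr, rfl⟩ := hz
    rw [Finset.mem_filter]
    exact hmaps r hr
  have h3 : ∑ z ∈ ((Finset.Icc 1 q) ×ˢ (Finset.range (q + 1))).filter (fun z => z.2 < z.1), G z ≤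
      ∑ e ∈ Finset.Icc 1 q, (k + 729) * (e : ℝ) ^ (-(5 / 4) : ℝ) := by
    rw [Finset.sum_filter, Finset.sum_product]
    refine Finset.sum_le_sum fun e he => ?_
    rw [Finset.mem_Icc] at he
    have he1 : (1 : ℝ) ≤ e := by exact_mod_cast he.1
    have he0 : (0 : ℝ) < e := by linarith
    have h4 : ∑ f ∈ range (q + 1), (if f < e then G (e, f) else 0) ≤ ((k : ℝ) + #(Bad e)) / (e : ℝ) ^ 2 := by
      rw [← Finset.sum_filter]
      have h5 : (range (q + 1)).filter (fun f => f < e) = range e := by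
        ext f
        simp only [Finset.mem_filter, Finset.mem_range]
        omega
      rw [h5]
      simp only [hG]
      rw [← Finset.sum_div, Finset.sum_add_distrib]
      apply div_le_div_of_nonneg_right _ (by positivity)
      apply add_le_add
      · by_cases hek : e ≤ k
        · simp only [if_pos hek, Finset.sum_const, card_range, nsmul_eq_mul, mul_one]
          exact_mod_cast hek
        · simp only [if_neg hek, Finset.sum_const_zero]
          positivity
      · rw [← Finset.sum_filter, Finset.sum_const, nsmul_eq_mul, mul_one]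
        have : (range e).filter (fun f => f ∈ Bad e) ⊆ Bad e := fun f hf => (Finset.mem_filter.mp hf).2
        exact_mod_cast Finset.card_le_card this
    refine h4.trans ?_
    have h5 := hB e he.1
    have h6 : (k : ℝ) + #(Bad e) ≤ (k + 729) * (e : ℝ) ^ (3 / 4 : ℝ) := by
      have h7 : (1 : ℝ) ≤ (e : ℝ) ^ (3 / 4 : ℝ) := Real.one_le_rpow he1 (by norm_num)
      have h8 : (0 : ℝ) ≤ k := by positivity
      nlinarith
    calc ((k : ℝ) + #(Bad e)) / (e : ℝ) ^ 2 ≤ (k + 729) * (e : ℝ) ^ (3 / 4 : ℝ) / (e : ℝ) ^ 2 :=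
          div_le_div_of_nonneg_right h6 (by positivity)
      _ = (k + 729) * (e : ℝ) ^ (-(5 / 4) : ℝ) := by
          rw [mul_div_assoc, ← Real.rpow_natCast (e : ℝ) 2, ← Real.rpow_sub he0]
          norm_num
  have h4 : ∑ e ∈ Finset.Icc 1 q, (k + 729) * (e : ℝ) ^ (-(5 / 4) : ℝ) ≤
      (k + 729) * (∑' n : ℕ, (n : ℝ) ^ (-(5 / 4) : ℝ)) := by
    rw [← Finset.mul_sum]
    apply mul_le_mul_of_nonneg_left _ (by positivity)
    exact hsum.sum_le_tsum _ (fun n _ => by positivity)
  rw [h1]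
  calc _ ≤ _ := Finset.sum_le_sum_of_subset_of_nonneg h2 fun z _ _ => hG0 z
    _ ≤ _ := h3
    _ ≤ _ := h4
    _ ≤ _ := by linarith

/-- the tails have full measure -/
theorem tail_full (y : ℝ × ℝ) (u : ℕ → ℝ) (h0 : ∀ s, 0 ≤ u s) (h1 : ∀ s, u s ≤ 1 / 2)
    (hdiv : ¬ Summable (fun q => u q ^ 2)) (Q : ℕ) :
    volume.real (⋃ q ∈ {q : ℕ | Q < q}, A y u q) = 1 := by
  classical
  -- the classes
  have hlat : ∀ e : ℕ, ∃ a : ℤ × ℤ, ∃ Bad : Finset ℕ, (1 ≤ e → (#Bad : ℝ) ≤ 729 * (e : ℝ) ^ (3 / 4 : ℝ)) ∧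
      (1 ≤ e → ∀ f : ℕ, 1 ≤ f → f < e → Nat.Coprime e f → f ∉ Bad → ∀ α β : ℤ × ℤ,
        |(f : ℝ) * α.1 - e * β.1 - ((e : ℝ) - f) * y.1| < 2 * (e : ℝ) ^ (-(3 / 4) : ℝ) →
        |(f : ℝ) * α.2 - e * β.2 - ((e : ℝ) - f) * y.2| < 2 * (e : ℝ) ^ (-(3 / 4) : ℝ) →
        α.1 ≡ a.1 [ZMOD e] ∧ α.2 ≡ a.2 [ZMOD e]) := by
    intro e
    by_cases he : 1 ≤ e
    · have he1 : (1 : ℝ) ≤ e := by exact_mod_cast he
      have he0 : (0 : ℝ) < e := by linarith
      obtain ⟨a, Bad, hcard, hprop⟩ := lattice y e he (2 * (e : ℝ) ^ (-(3 / 4) : ℝ)) (by positivity)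
      refine ⟨a, Bad, fun _ => ?_, fun _ => hprop⟩
      refine hcard.trans ?_
      have h2 : (e : ℝ) * (e : ℝ) ^ (-(3 / 4) : ℝ) = (e : ℝ) ^ (1 / 4 : ℝ) := by
        nth_rewrite 1 [← Real.rpow_one (e : ℝ)]
        rw [← Real.rpow_add he0]; norm_num
      have h3 : (1 : ℝ) ≤ (e : ℝ) ^ (1 / 4 : ℝ) := Real.one_le_rpow he1 (by norm_num)
      have h4 : 4 * (e : ℝ) * (2 * (e : ℝ) ^ (-(3 / 4) : ℝ)) + 1 ≤ 9 * (e : ℝ) ^ (1 / 4 : ℝ) := by
        have : 4 * (e : ℝ) * (2 * (e : ℝ) ^ (-(3 / 4) : ℝ)) = 8 * ((e : ℝ) * (e : ℝ) ^ (-(3 / 4) : ℝ)) := by ring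
        rw [this, h2]; linarith
      calc (4 * (e : ℝ) * (2 * (e : ℝ) ^ (-(3 / 4) : ℝ)) + 1) ^ 3 ≤ (9 * (e : ℝ) ^ (1 / 4 : ℝ)) ^ 3 :=
            pow_le_pow_left₀ (by positivity) h4 3
        _ = 729 * (e : ℝ) ^ (3 / 4 : ℝ) := by
            rw [mul_pow, ← Real.rpow_natCast ((e : ℝ) ^ (1 / 4 : ℝ)) 3, ← Real.rpow_mul he0.le]
            norm_num
    · exact ⟨0, ∅, fun h => absurd h he, fun h => absurd h he⟩
  choose a Bad hcardBad hbad using hlat
  obtain ⟨C0, hC0, hbil⟩ := bilinear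
  set U : Set (UnitAddCircle × UnitAddCircle) := ⋃ q ∈ {q : ℕ | Q < q}, A y u q with hU
  have hUm : MeasurableSet U := MeasurableSet.biUnion (Set.to_countable _) fun q _ => A_meas y u q
  set m : ℝ := volume.real U with hm
  have hm1 : m ≤ 1 := by
    rw [hm]
    have : IsProbabilityMeasure (volume : Measure UnitAddCircle) := ⟨by simp⟩
    have : IsProbabilityMeasure (volume : Measure (UnitAddCircle × UnitAddCircle)) := by
      rw [show (volume : Measure (UnitAddCircle × UnitAddCircle)) = volume.prod volume from rfl]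
      infer_instance
    exact measureReal_le_one
  have hm0 : 0 ≤ m := measureReal_nonneg
  -- the main inequality
  have main : ∀ k : ℕ, 1 ≤ k → ∀ T : ℝ, 1 ≤ T → ∀ η : ℝ, 0 < η →
      16 * (1 - 1 / (k : ℝ)) ^ 2 ≤ m * (16 * (1 + 1 / (2 * T)) ^ 2 + η) := by
    intro k hk T hT η hη
    have hk1 : (1 : ℝ) ≤ k := by exact_mod_cast hk
    obtain ⟨K, hK, hexc⟩ := exceptional Bad hcardBad k
    set B : ℝ := 4 + 8 * (2 * T + 1) ^ 2 * (K + 1) with hB
    have hB0 : 0 < B := by positivity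
    set Bnd : ℝ := max 1 (max (2 * B / η) (C0 * (2 * B / η) ^ 4)) with hBnd
    -- choose a finite set
    obtain ⟨N, hN⟩ : ∃ N : ℕ, Bnd ≤ ∑ q ∈ (Finset.Ioc Q N), u q ^ 2 := by
      by_contra hcon
      push Not at hcon
      apply hdiv
      apply summable_of_sum_range_le (c := Bnd + ∑ q ∈ range (Q + 1), u q ^ 2) (fun n => sq_nonneg _)
      intro n
      have h2 : range n ⊆ range (Q + 1) ∪ Finset.Ioc Q n := by
        intro x hx
        rw [Finset.mem_union, Finset.mem_range, Finset.mem_Ioc]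
        rw [Finset.mem_range] at hx
        omega
      calc ∑ i ∈ range n, u i ^ 2 ≤ ∑ i ∈ range (Q + 1) ∪ Finset.Ioc Q n, u i ^ 2 :=
            Finset.sum_le_sum_of_subset_of_nonneg h2 fun _ _ _ => sq_nonneg _
        _ ≤ ∑ i ∈ range (Q + 1), u i ^ 2 + ∑ i ∈ Finset.Ioc Q n, u i ^ 2 := by
            rw [← Finset.sum_union_inter]
            have : 0 ≤ ∑ i ∈ range (Q + 1) ∩ Finset.Ioc Q n, u i ^ 2 := Finset.sum_nonneg fun _ _ => sq_nonneg _
            linarith
        _ ≤ _ := by have := (hcon n).le; linarith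
    set S : Finset ℕ := Finset.Ioc Q N with hS
    have hSpos : ∀ s ∈ S, 0 < s := by
      intro s hs
      rw [hS, Finset.mem_Ioc] at hs
      omega
    set Ψ : ℝ := ∑ q ∈ S, u q ^ 2 with hΨ
    have hΨ1 : 1 ≤ Ψ := (le_max_left _ _).trans hN
    have hΨ2 : 2 * B / η ≤ Ψ := ((le_max_left _ _).trans (le_max_right _ _)).trans hN
    have hΨ3 : C0 * (2 * B / η) ^ 4 ≤ Ψ := ((le_max_right _ _).trans (le_max_right _ _)).trans hN
    have hΨ0 : 0 < Ψ := by linarith
    set X : ℝ := ∑ r ∈ S, ∑ q ∈ S.filter (fun q => r < q), u q * Real.sqrt (u q) * u r * W q r with hX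
    have hX0 : 0 ≤ X := Finset.sum_nonneg fun r _ => Finset.sum_nonneg fun q _ => by
      have := h0 q; have := h0 r; have := W_nonneg q r; positivity
    have hX4 : X ^ 4 ≤ C0 * Ψ ^ 5 := hbil S hSpos u h0
    have hXb : X ≤ η / (2 * B) * Ψ ^ 2 := by
      have h2 : X ^ 4 ≤ (η / (2 * B) * Ψ ^ 2) ^ 4 := by
        refine hX4.trans ?_
        have h3 : (η / (2 * B) * Ψ ^ 2) ^ 4 = (η / (2 * B)) ^ 4 * Ψ ^ 8 := by ring
        rw [h3]
        have h4 : C0 ≤ (η / (2 * B)) ^ 4 * Ψ := by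
          have h5 : (η / (2 * B)) ^ 4 * (C0 * (2 * B / η) ^ 4) = C0 := by
            field_simp
          calc C0 = (η / (2 * B)) ^ 4 * (C0 * (2 * B / η) ^ 4) := h5.symm
            _ ≤ (η / (2 * B)) ^ 4 * Ψ := mul_le_mul_of_nonneg_left hΨ3 (by positivity)
        have h6 : Ψ ^ 6 ≤ Ψ ^ 8 := pow_le_pow_right₀ hΨ1 (by norm_num)
        calc C0 * Ψ ^ 5 ≤ ((η / (2 * B)) ^ 4 * Ψ) * Ψ ^ 5 := mul_le_mul_of_nonneg_right h4 (by positivity)
          _ = (η / (2 * B)) ^ 4 * Ψ ^ 6 := by ring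
          _ ≤ (η / (2 * B)) ^ 4 * Ψ ^ 8 := mul_le_mul_of_nonneg_left h6 (by positivity)
      exact le_of_pow_le_pow_left₀ (by norm_num) (by positivity) h2
    have hce := chung_erdos (volume : Measure (UnitAddCircle × UnitAddCircle)) S (fun q => A' y u a k q)
      (fun q => A'_meas y u a k q) U hUm (by
        intro q hq
        rw [hS, Finset.mem_Ioc] at hq
        refine Set.sdiff_subset.trans ?_
        rw [hU]
        exact Set.subset_biUnion_of_mem (u := fun q => A y u q) (show q ∈ {q : ℕ | Q < q} from hq.1))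
    rw [← hm] at hce
    have hlow : 4 * Ψ * (1 - 1 / k) ≤ ∑ q ∈ S, volume.real (A' y u a k q) := by
      calc 4 * Ψ * (1 - 1 / k) = ∑ q ∈ S, 4 * u q ^ 2 * (1 - 1 / k) := by
            rw [hΨ, ← Finset.sum_mul, Finset.mul_sum]
        _ ≤ _ := Finset.sum_le_sum fun q hq => real_A' y u a k q hk (hSpos q hq) (h0 q) (h1 q)
    have hup : ∑ q ∈ S, ∑ r ∈ S, volume.real (A' y u a k q ∩ A' y u a k r) ≤
        16 * (1 + 1 / (2 * T)) ^ 2 * Ψ ^ 2 + B * Ψ + B * X := by
      set F : ℕ → ℕ → ℝ := fun q r => volume.real (A' y u a k q ∩ A' y u a k r) with hF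
      have hFs : ∀ q r, F q r = F r q := by
        intro q r
        simp only [hF]
        rw [Set.inter_comm]
      have hsplit : ∑ q ∈ S, ∑ r ∈ S, F q r = ∑ q ∈ S, F q q + 2 * ∑ q ∈ S, ∑ r ∈ S.filter (fun r => r < q), F q r := by
        have h2 : ∀ q ∈ S, ∑ r ∈ S, F q r = F q q + ∑ r ∈ S.filter (fun r => r < q), F q r +
            ∑ r ∈ S.filter (fun r => q < r), F q r := by
          intro q hq
          have h3 : ∀ r ∈ S, F q r = (if r = q then F q r else 0) + (if r < q then F q r else 0) +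
              (if q < r then F q r else 0) := by
            intro r _
            rcases lt_trichotomy r q with h | h | h
            · rw [if_neg h.ne, if_pos h, if_neg (by omega)]; ring
            · rw [if_pos h, if_neg (by omega), if_neg (by omega)]; ring
            · rw [if_neg h.ne', if_neg (by omega), if_pos h]; ring
          rw [Finset.sum_congr rfl h3, Finset.sum_add_distrib, Finset.sum_add_distrib, ← Finset.sum_filter,
            ← Finset.sum_filter, ← Finset.sum_filter]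
          congr 2
          rw [Finset.filter_eq' S q, if_pos hq, Finset.sum_singleton]
        rw [Finset.sum_congr rfl h2, Finset.sum_add_distrib, Finset.sum_add_distrib]
        have h4 : ∑ q ∈ S, ∑ r ∈ S.filter (fun r => q < r), F q r = ∑ q ∈ S, ∑ r ∈ S.filter (fun r => r < q), F q r := by
          simp_rw [Finset.sum_filter]
          rw [Finset.sum_comm]
          refine Finset.sum_congr rfl fun q _ => Finset.sum_congr rfl fun r _ => ?_
          split_ifs
          · exact hFs _ _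
          · rfl
        rw [h4]; ring
      rw [hsplit]
      have hdiag : ∑ q ∈ S, F q q ≤ 4 * Ψ := by
        rw [hΨ, Finset.mul_sum]
        refine Finset.sum_le_sum fun q hq => ?_
        simp only [hF]
        rw [← real_A y u q (hSpos q hq) (h0 q) (h1 q)]
        exact measureReal_mono (Set.inter_subset_left.trans Set.sdiff_subset)
      have hoff : ∑ q ∈ S, ∑ r ∈ S.filter (fun r => r < q), F q r ≤
          8 * (1 + 1 / (2 * T)) ^ 2 * Ψ ^ 2 + 4 * (2 * T + 1) ^ 2 * (K * Ψ + X) := by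
        have h2 : ∀ q ∈ S, ∀ r ∈ S.filter (fun r => r < q), F q r ≤
            16 * (1 + 1 / (2 * T)) ^ 2 * (u q ^ 2 * u r ^ 2) +
            (4 * (2 * T + 1) ^ 2 * (u q ^ 2 * ((((if ee q r ≤ k then 1 else 0) : ℝ) +
              (if ff q r ∈ Bad (ee q r) then 1 else 0)) / (ee q r : ℝ) ^ 2)) +
            4 * (2 * T + 1) ^ 2 * (u q * Real.sqrt (u q) * u r * W q r)) := by
          intro q _ r hr
          rw [Finset.mem_filter] at hr
          have h3 := pair_bound y u h0 h1 a Bad k T hT hbad q r (hSpos r hr.1) hr.2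
          calc F q r ≤ _ := h3
            _ = _ := by rw [mul_div_assoc]; ring
        calc ∑ q ∈ S, ∑ r ∈ S.filter (fun r => r < q), F q r ≤
            ∑ q ∈ S, ∑ r ∈ S.filter (fun r => r < q), (16 * (1 + 1 / (2 * T)) ^ 2 * (u q ^ 2 * u r ^ 2) +
            (4 * (2 * T + 1) ^ 2 * (u q ^ 2 * ((((if ee q r ≤ k then 1 else 0) : ℝ) +
              (if ff q r ∈ Bad (ee q r) then 1 else 0)) / (ee q r : ℝ) ^ 2)) +
            4 * (2 * T + 1) ^ 2 * (u q * Real.sqrt (u q) * u r * W q r))) :=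
              Finset.sum_le_sum fun q hq => Finset.sum_le_sum fun r hr => h2 q hq r hr
          _ = 16 * (1 + 1 / (2 * T)) ^ 2 * ∑ q ∈ S, ∑ r ∈ S.filter (fun r => r < q), (u q ^ 2 * u r ^ 2) +
              (4 * (2 * T + 1) ^ 2 * ∑ q ∈ S, u q ^ 2 * ∑ r ∈ S.filter (fun r => r < q), ((((if ee q r ≤ k then 1 else 0) : ℝ) +
              (if ff q r ∈ Bad (ee q r) then 1 else 0)) / (ee q r : ℝ) ^ 2) +
              4 * (2 * T + 1) ^ 2 * X) := by
              have hX' : X = ∑ q ∈ S, ∑ r ∈ S.filter (fun r => r < q), u q * Real.sqrt (u q) * u r * W q r := by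
                rw [hX]
                simp_rw [Finset.sum_filter]
                rw [Finset.sum_comm]
              rw [hX']
              simp_rw [Finset.sum_add_distrib, Finset.mul_sum]
          _ ≤ 16 * (1 + 1 / (2 * T)) ^ 2 * (Ψ ^ 2 / 2) + (4 * (2 * T + 1) ^ 2 * (K * Ψ) + 4 * (2 * T + 1) ^ 2 * X) := by
              have h5 : ∑ q ∈ S, ∑ r ∈ S.filter (fun r => r < q), (u q ^ 2 * u r ^ 2) ≤ Ψ ^ 2 / 2 := by
                have h6 : 2 * ∑ q ∈ S, ∑ r ∈ S.filter (fun r => r < q), (u q ^ 2 * u r ^ 2) ≤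
                    ∑ q ∈ S, ∑ r ∈ S, (u q ^ 2 * u r ^ 2) := by
                  have h7 : ∑ q ∈ S, ∑ r ∈ S.filter (fun r => r < q), (u q ^ 2 * u r ^ 2) =
                      ∑ q ∈ S, ∑ r ∈ S.filter (fun r => q < r), (u q ^ 2 * u r ^ 2) := by
                    simp_rw [Finset.sum_filter]
                    rw [Finset.sum_comm]
                    refine Finset.sum_congr rfl fun q _ => Finset.sum_congr rfl fun r _ => ?_
                    split_ifs
                    · ring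
                    · rfl
                  rw [two_mul]
                  nth_rewrite 2 [h7]
                  rw [← Finset.sum_add_distrib]
                  refine Finset.sum_le_sum fun q _ => ?_
                  rw [Finset.sum_filter, Finset.sum_filter, ← Finset.sum_add_distrib]
                  refine Finset.sum_le_sum fun r _ => ?_
                  have h8 : 0 ≤ u q ^ 2 * u r ^ 2 := by positivity
                  split_ifs with h9 h10 h10
                  · omega
                  · linarith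
                  · linarith
                  · linarith
                have h7 : ∑ q ∈ S, ∑ r ∈ S, (u q ^ 2 * u r ^ 2) = Ψ ^ 2 := by
                  rw [hΨ, sq (∑ q ∈ S, u q ^ 2), Finset.sum_mul_sum]
                linarith
              have h6 : ∑ q ∈ S, u q ^ 2 * ∑ r ∈ S.filter (fun r => r < q), ((((if ee q r ≤ k then 1 else 0) : ℝ) +
                  (if ff q r ∈ Bad (ee q r) then 1 else 0)) / (ee q r : ℝ) ^ 2) ≤ K * Ψ := by
                rw [hΨ, Finset.mul_sum]
                refine Finset.sum_le_sum fun q hq => ?_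
                rw [mul_comm K]
                exact mul_le_mul_of_nonneg_left (hexc S hSpos q (hSpos q hq)) (sq_nonneg _)
              have h7 := mul_le_mul_of_nonneg_left h5 (by positivity : 0 ≤ 16 * (1 + 1 / (2 * T)) ^ 2)
              have h8 := mul_le_mul_of_nonneg_left h6 (by positivity : 0 ≤ 4 * (2 * T + 1) ^ 2)
              linarith
          _ = _ := by ring
      have h9 : B * Ψ + B * X = 4 * Ψ + 4 * X + 8 * (2 * T + 1) ^ 2 * (K + 1) * Ψ + 8 * (2 * T + 1) ^ 2 * (K + 1) * X := by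
        rw [hB]; ring
      have h10 : 0 ≤ 8 * (2 * T + 1) ^ 2 * K * X := by positivity
      have h11 : 0 ≤ 8 * (2 * T + 1) ^ 2 * Ψ := by positivity
      nlinarith [hdiag, hoff, h9, h10, h11, hX0]
    have h16 : 16 * (1 - 1 / (k : ℝ)) ^ 2 * Ψ ^ 2 ≤ m * (16 * (1 + 1 / (2 * T)) ^ 2 + η) * Ψ ^ 2 := by
      have h2 : (4 * Ψ * (1 - 1 / k)) ^ 2 ≤ (∑ q ∈ S, volume.real (A' y u a k q)) ^ 2 := by
        apply pow_le_pow_left₀ _ hlow
        have : (1 : ℝ) / k ≤ 1 := by rw [div_le_one (by linarith)]; exact hk1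
        apply mul_nonneg (by positivity); linarith
      have h3 : B * Ψ + B * X ≤ η * Ψ ^ 2 := by
        have h4 : B * Ψ ≤ η / 2 * Ψ ^ 2 := by
          rw [div_le_iff₀ hη] at hΨ2
          nlinarith
        have h5 : B * X ≤ η / 2 * Ψ ^ 2 := by
          calc B * X ≤ B * (η / (2 * B) * Ψ ^ 2) := mul_le_mul_of_nonneg_left hXb hB0.le
            _ = η / 2 * Ψ ^ 2 := by field_simp
        linarith
      calc 16 * (1 - 1 / (k : ℝ)) ^ 2 * Ψ ^ 2 = (4 * Ψ * (1 - 1 / k)) ^ 2 := by ring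
        _ ≤ (∑ q ∈ S, volume.real (A' y u a k q)) ^ 2 := h2
        _ ≤ m * ∑ q ∈ S, ∑ r ∈ S, volume.real (A' y u a k q ∩ A' y u a k r) := hce
        _ ≤ m * (16 * (1 + 1 / (2 * T)) ^ 2 * Ψ ^ 2 + B * Ψ + B * X) := mul_le_mul_of_nonneg_left hup hm0
        _ ≤ m * (16 * (1 + 1 / (2 * T)) ^ 2 * Ψ ^ 2 + η * Ψ ^ 2) := by
          apply mul_le_mul_of_nonneg_left _ hm0
          linarith
        _ = _ := by ring
    exact le_of_mul_le_mul_right h16 (by positivity)
  -- the limit
  have hlim : 16 ≤ m * 16 := by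
    have hl : Filter.Tendsto (fun n : ℕ => 16 * (1 - 1 / ((n + 1 : ℕ) : ℝ)) ^ 2) Filter.atTop (nhds (16 * (1 - 0) ^ 2)) := by
      apply Filter.Tendsto.const_mul
      apply Filter.Tendsto.pow
      apply Filter.Tendsto.const_sub
      exact_mod_cast tendsto_one_div_add_atTop_nhds_zero_nat (𝕜 := ℝ)
    have hr : Filter.Tendsto (fun n : ℕ => m * (16 * (1 + 1 / (2 * ((n + 1 : ℕ) : ℝ))) ^ 2 + 1 / ((n + 1 : ℕ) : ℝ)))
        Filter.atTop (nhds (m * (16 * (1 + 1 / 2 * 0) ^ 2 + 0))) := by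
      apply Filter.Tendsto.const_mul
      apply Filter.Tendsto.add
      · apply Filter.Tendsto.const_mul
        apply Filter.Tendsto.pow
        apply Filter.Tendsto.const_add
        have : (fun n : ℕ => 1 / (2 * ((n + 1 : ℕ) : ℝ))) = fun n : ℕ => 1 / 2 * (1 / ((n + 1 : ℕ) : ℝ)) := by
          funext n
          field_simp
        rw [this]
        apply Filter.Tendsto.const_mul
        exact_mod_cast tendsto_one_div_add_atTop_nhds_zero_nat (𝕜 := ℝ)
      · exact_mod_cast tendsto_one_div_add_atTop_nhds_zero_nat (𝕜 := ℝ)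
    have := le_of_tendsto_of_tendsto' hl hr (fun n => main (n + 1) (by omega) ((n + 1 : ℕ) : ℝ)
      (by exact_mod_cast Nat.succ_le_succ (Nat.zero_le n)) (1 / ((n + 1 : ℕ) : ℝ)) (by positivity))
    norm_num at this
    linarith
  linarith

end Pool.Agent.L5helper10.IK
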